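import Mathlib

/-!
# Poisson manifolds in elementary terms
-/

open Set Topology
open scoped Manifold ContDiff

namespace Pool.Agent.V11199.PL.Elem

variable {n : ℕ} {M : Type*} [TopologicalSpace M] [ChartedSpace (EuclideanSpace ℝ (Fin n)) M]

/-- `f : M → ℝ` is smooth (`C^∞`). -/
def IsSmooth (n : ℕ) {M : Type*} [TopologicalSpace M]
    [ChartedSpace (EuclideanSpace ℝ (Fin n)) M] (f : M → ℝ) : Prop :=
  ContMDiff (𝓡 n) 𝓘(ℝ, ℝ) ∞ f

/-- `ψ : M → M` is smooth (`C^∞`). -/
def IsSmoothMap (n : ℕ) {M : Type*} [TopologicalSpace M]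
    [ChartedSpace (EuclideanSpace ℝ (Fin n)) M] (ψ : M → M) : Prop :=
  ContMDiff (𝓡 n) (𝓡 n) ∞ ψ

/-- `C^∞(M)`. -/
def Fn (n : ℕ) (M : Type*) [TopologicalSpace M] [ChartedSpace (EuclideanSpace ℝ (Fin n)) M] :
    Type _ := {f : M → ℝ // IsSmooth n f}

/-- The value of a smooth function at a point. -/
def val (f : Fn n M) (x : M) : ℝ := Subtype.val f x

/-- `B = {·, ·}` is a Poisson bracket on `C^∞(M)`: it is linear in the second variable, skew, and
satisfies the Leibniz rule and the Jacobi identity. -/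
structure IsPoissonBracket (B : Fn n M → Fn n M → Fn n M) : Prop where
  add : ∀ f g h k : Fn n M, (∀ x, val k x = val g x + val h x) →
    ∀ x, val (B f k) x = val (B f g) x + val (B f h) x
  smul : ∀ (r : ℝ) (f g h : Fn n M), (∀ x, val h x = r * val g x) →
    ∀ x, val (B f h) x = r * val (B f g) x
  skew : ∀ (f g : Fn n M) (x : M), val (B f g) x = -val (B g f) x
  leibniz : ∀ f g h k : Fn n M, (∀ x, val k x = val g x * val h x) →
    ∀ x, val (B f k) x = val (B f g) x * val h x + val g x * val (B f h) x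
  jacobi : ∀ (f g h : Fn n M) (x : M),
    val (B f (B g h)) x = val (B (B f g) h) x + val (B g (B f h)) x

/-- The homeomorphism `ψ` is a Poisson diffeomorphism: it and its inverse are smooth, and
`{f ∘ ψ, g ∘ ψ} = {f, g} ∘ ψ`. -/
def IsPoissonDiffeo (B : Fn n M → Fn n M → Fn n M) (ψ : M ≃ₜ M) : Prop :=
  IsSmoothMap n ψ ∧ IsSmoothMap n ψ.symm ∧ ∀ f g f' g' : Fn n M,
    (∀ x, val f' x = val f (ψ x)) → (∀ x, val g' x = val g (ψ x)) →
      ∀ x, val (B f' g') x = val (B f g) (ψ x)

/-- The homeomorphism `φ` is a Poisson homeomorphism: it is the limit of a sequence of Poisson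
diffeomorphisms in the compact-open topology, that is, uniformly on compact sets. -/
def IsPoissonHomeo (B : Fn n M → Fn n M → Fn n M) (φ : M ≃ₜ M) : Prop :=
  ∃ ψ : ℕ → M ≃ₜ M, (∀ k, IsPoissonDiffeo B (ψ k)) ∧
    ∀ K U : Set M, IsCompact K → IsOpen U → MapsTo φ K U → ∃ N, ∀ k, N ≤ k → MapsTo (ψ k) K U

/-- `y` is the end point of an integral curve `γ : [0, 1] → M`, starting at `x` and contained in
`U`, of a Hamiltonian vector field `{f, ·}`. -/
def HamStep (B : Fn n M → Fn n M → Fn n M) (U : Set M) (x y : M) : Prop :=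
  ∃ (f : Fn n M) (γ : ℝ → M), γ 0 = x ∧ γ 1 = y ∧ ContinuousOn γ (Icc 0 1) ∧
    ∀ s ∈ Icc (0 : ℝ) 1, γ s ∈ U ∧ ∀ g : Fn n M,
      HasDerivWithinAt (fun t => val g (γ t)) (val (B f g) (γ s)) (Icc 0 1) s

/-- The points that can be reached from `x` inside `U` along finitely many integral curves of
Hamiltonian vector fields. -/
def reach (B : Fn n M → Fn n M → Fn n M) (U : Set M) (x : M) : Set M :=
  {y | Relation.ReflTransGen (HamStep B U) x y}

/-- The symplectic leaf through `x`. -/
def leaf (B : Fn n M → Fn n M → Fn n M) (x : M) : Set M := reach B univ x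

/-- The leaf topology on `M`: it is generated by the sets of points reachable from a point inside
an open set. -/
@[reducible]
def leafTopology (B : Fn n M → Fn n M → Fn n M) : TopologicalSpace M :=
  TopologicalSpace.generateFrom {S | ∃ (U : Set M) (x : M), IsOpen U ∧ x ∈ U ∧ S = reach B U x}

end Pool.Agent.V11199.PL.Elem
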