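import Mathlib

/-!
# Limits of homeomorphisms and their inverses
-/

open Set Topology Filter

namespace Pool.Agent.V11199.PL

variable {X : Type*} [TopologicalSpace X] [T2Space X] [LocallyCompactSpace X]
  [LocallyConnectedSpace X]

theorem symm_local {φ : X ≃ₜ X} {ψ : ℕ → X ≃ₜ X}
    (h : Tendsto (fun k => (⟨ψ k, (ψ k).continuous⟩ : C(X, X))) atTop (𝓝 ⟨φ, φ.continuous⟩))
    {y : X} {O : Set X} (hO : IsOpen O) (hy : φ.symm y ∈ O) :
    ∃ V ∈ 𝓝 y, ∀ᶠ k in atTop, MapsTo (ψ k).symm V O := by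
  rw [ContinuousMap.tendsto_nhds_compactOpen] at h
  obtain ⟨C, hC, hxC, hCO⟩ := exists_compact_subset hO hy
  have hCcl : IsClosed C := hC.isClosed
  have hfr : IsCompact (frontier C) := hC.of_isClosed_subset isClosed_frontier hCcl.frontier_subset
  have hWo : IsOpen (φ '' frontier C)ᶜ := (hfr.image φ.continuous).isClosed.isOpen_compl
  have hyW : y ∈ (φ '' frontier C)ᶜ := by
    rintro ⟨z, hz, hzy⟩
    have h1 : z = φ.symm y := by rw [← hzy, φ.symm_apply_apply]
    rw [h1, frontier] at hz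
    exact hz.2 hxC
  obtain ⟨V₁, hV₁, hV₁c, hV₁W⟩ : ∃ V₁ ∈ 𝓝 y, IsClosed V₁ ∧ V₁ ⊆ (φ '' frontier C)ᶜ :=
    exists_mem_nhds_isClosed_subset (hWo.mem_nhds hyW)
  obtain ⟨V, hVV₁, hVo, hyV, hVc⟩ :=
    locallyConnectedSpace_iff_subsets_isOpen_isConnected.1 inferInstance y V₁ hV₁
  refine ⟨V, hVo.mem_nhds hyV, ?_⟩
  have e1 := h (frontier C) hfr V₁ᶜ hV₁c.isOpen_compl (by
    intro z hz hz2
    exact hV₁W hz2 ⟨z, hz, rfl⟩)
  have e2 := h {φ.symm y} isCompact_singleton V hVo (by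
    intro z hz
    rw [mem_singleton_iff] at hz
    change φ z ∈ V
    rw [hz, φ.apply_symm_apply]
    exact hyV)
  filter_upwards [e1, e2] with k h1 h2
  have h3 : ψ k (φ.symm y) ∈ V := h2 (mem_singleton _)
  have h4 : V ⊆ ψ k '' interior C := by
    refine IsPreconnected.subset_left_of_subset_union (u := ψ k '' interior C)
      (v := (ψ k '' C)ᶜ) ?_ ?_ ?_ ?_ ?_ hVc.isPreconnected
    · exact (ψ k).isOpenMap _ isOpen_interior
    · exact (hC.image (ψ k).continuous).isClosed.isOpen_compl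
    · exact disjoint_compl_right.mono_left (image_mono interior_subset)
    · intro z hz
      by_cases hzC : z ∈ ψ k '' C
      · left
        obtain ⟨w, hw, rfl⟩ := hzC
        refine ⟨w, ?_, rfl⟩
        by_contra hwi
        have h5 : w ∈ frontier C := ⟨subset_closure hw, hwi⟩
        exact h1 h5 (hVV₁ hz)
      · right
        exact hzC
    · exact ⟨_, h3, _, hxC, rfl⟩
  intro z hz
  obtain ⟨w, hw, rfl⟩ := h4 hz
  rw [(ψ k).symm_apply_apply]
  exact hCO (interior_subset hw)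

/-- The inverses converge. -/
theorem symm_tendsto {φ : X ≃ₜ X} {ψ : ℕ → X ≃ₜ X}
    (h : Tendsto (fun k => (⟨ψ k, (ψ k).continuous⟩ : C(X, X))) atTop (𝓝 ⟨φ, φ.continuous⟩)) :
    Tendsto (fun k => (⟨(ψ k).symm, (ψ k).symm.continuous⟩ : C(X, X))) atTop
      (𝓝 ⟨φ.symm, φ.symm.continuous⟩) := by
  rw [ContinuousMap.tendsto_nhds_compactOpen]
  intro K hK O hO hKO
  refine hK.induction_on (p := fun s => ∀ᶠ k in atTop, MapsTo (ψ k).symm s O) ?_ ?_ ?_ ?_
  · exact Eventually.of_forall fun k => mapsTo_empty _ _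
  · intro s t hst ht
    filter_upwards [ht] with k hk
    exact hk.mono_left hst
  · intro s t hs ht
    filter_upwards [hs, ht] with k h1 h2
    exact h1.union h2
  · intro y hy
    obtain ⟨V, hV, hV2⟩ := symm_local h hO (hKO hy)
    exact ⟨V, mem_nhdsWithin_of_mem_nhds hV, hV2⟩

end Pool.Agent.V11199.PL
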