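import Mathlib
import Pool.Agent.GR.Flow
import Pool.Agent.V11199.HP.Flow

/-!
# Local Poisson geometry: flows of linear Hamiltonians
-/

open Topology Filter Set
open scoped ContDiff NNReal

namespace Pool.Agent.V11199.PL

variable {E : Type} [NormedAddCommGroup E] [NormedSpace ℝ E]

/-- A smooth compactly supported autonomous vector field has a smooth flow. -/
theorem exists_flow [CompleteSpace E] {Y : E → E} (hY : ContDiff ℝ ∞ Y)
    (hc : HasCompactSupport Y) :
    ∃ F : ℝ → E → E, ContDiff ℝ ∞ (fun p : ℝ × E => F p.1 p.2) ∧ (∀ x, F 0 x = x) ∧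
      (∀ t x, HasDerivAt (fun t => F t x) (Y (F t x)) t) ∧
      (∀ s t x, F (s + t) x = F s (F t x)) := by
  obtain ⟨K, hK⟩ := hY.lipschitzWith_of_hasCompactSupport hc (by simp)
  obtain ⟨M, hM⟩ := hc.exists_bound_of_continuous hY.continuous
  let Z : C(E, E) := ⟨Y, hY.continuous⟩
  have hZM : ∀ p, ‖Z p‖ ≤ ((Real.toNNReal M : ℝ≥0) : ℝ) := fun p =>
    (hM p).trans (Real.le_coe_toNNReal M)
  choose g h0 h1 using fun p => Pool.Agent.GR.Flow.exists_solution (X := Z) hK hZM p
  have hfl : Pool.Agent.GR.Flow.IsFlowOf Z (fun t p => g p t) := ⟨h0, h1⟩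
  refine ⟨fun t x => g x t, ?_, h0, fun t x => h1 x t, fun s t x => hfl.add hK s t x⟩
  rw [contDiff_infty]
  intro m
  have key : ∀ m : ℕ, m ≠ 0 → ContDiff ℝ m (fun q : ℝ × E => g q.2 q.1) := by
    intro m hm
    exact Pool.Agent.GR.Flow.contDiff_flow hm (hY.of_le (by exact_mod_cast le_top)) hK hfl
  exact (key (m + 1) (by omega)).of_le (by exact_mod_cast Nat.le_succ m)

/-- Uniqueness for linear differential inequalities. -/
theorem linear_zero {F : Type} [NormedAddCommGroup F] [NormedSpace ℝ F] {D D' : ℝ → F} {K : ℝ}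
    (h : ∀ s ∈ Icc (0 : ℝ) 1, HasDerivAt D (D' s) s)
    (hb : ∀ s ∈ Icc (0 : ℝ) 1, ‖D' s‖ ≤ K * ‖D s‖) (h0 : D 0 = 0) :
    ∀ s ∈ Icc (0 : ℝ) 1, D s = 0 := by
  refine eq_zero_of_abs_deriv_le_mul_abs_self_of_eq_zero_right
    (fun s hs => (h s hs).continuousAt.continuousWithinAt)
    (fun s hs => (h s ⟨hs.1, hs.2.le⟩).hasDerivWithinAt) h0
    (fun s hs => hb s ⟨hs.1, hs.2.le⟩)

variable {D : Type} [NormedAddCommGroup D] [NormedSpace ℝ D]

/-- The transpose of an endomorphism, on the space `D` identified with the dual by `e`. -/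
noncomputable def pull [FiniteDimensional ℝ D] (e : D ≃L[ℝ] (E →L[ℝ] ℝ)) (L : E →L[ℝ] E) :
    D →L[ℝ] D :=
  LinearMap.toContinuousLinearMap
    { toFun := fun b => e.symm ((e b).comp L)
      map_add' := by
        intro a b
        rw [map_add, ContinuousLinearMap.add_comp, map_add]
      map_smul' := by
        intro r b
        rw [map_smul, ContinuousLinearMap.smul_comp, map_smul]
        rfl }

/-- Local Poisson data: `P u` sends a covector to its Hamiltonian vector; on `O` the bracket of
linear functions is skew and satisfies the Jacobi identity. -/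
structure LocalPoisson [FiniteDimensional ℝ D] (e : D ≃L[ℝ] (E →L[ℝ] ℝ)) (P : E → D →L[ℝ] E)
    (O : Set E) : Prop where
  smooth : ContDiff ℝ ∞ P
  compact : HasCompactSupport P
  isOpen : IsOpen O
  skew : ∀ u ∈ O, ∀ a b : D, e a (P u b) = - e b (P u a)
  jacobi : ∀ u ∈ O, ∀ a b : D, fderiv ℝ P u (P u a) b
    = fderiv ℝ P u (P u b) a + P u (pull e ((fderiv ℝ P u).flip a) b)

/-- The flow data for linear Hamiltonians. -/
structure FlowData (P : E → D →L[ℝ] E)
    (F : ℝ → D × E → D × E) : Prop where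
  smooth : ContDiff ℝ ∞ (fun p : ℝ × (D × E) => F p.1 p.2)
  zero : ∀ x, F 0 x = x
  fst : ∀ t x, (F t x).1 = x.1
  deriv : ∀ t (a : D) u, ‖a‖ < 1 →
    HasDerivAt (fun t => (F t (a, u)).2) (P (F t (a, u)).2 a) t
  vari : ∀ t (a : D) u (b : D) v, ‖a‖ < 1 →
    HasDerivAt (fun t => (fderiv ℝ (F t) (a, u) (b, v)).2)
      (fderiv ℝ P (F t (a, u)).2 (fderiv ℝ (F t) (a, u) (b, v)).2 a + P (F t (a, u)).2 b) t
  add : ∀ s t x, F (s + t) x = F s (F t x)
  stat : ∀ t u, F t (0, u) = (0, u)

theorem exists_flowData [FiniteDimensional ℝ E] [FiniteDimensional ℝ D] {P : E → D →L[ℝ] E}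
    (hP : ContDiff ℝ ∞ P) (hc : HasCompactSupport P) :
    ∃ F : ℝ → D × E → D × E, FlowData P F := by
  have hcomp : CompleteSpace E := FiniteDimensional.complete ℝ E
  have hcompD : CompleteSpace D := FiniteDimensional.complete ℝ D
  let κ : ContDiffBump (0 : D) := ⟨1, 2, by norm_num, by norm_num⟩
  let Y : D × E → D × E := fun p => (0, κ p.1 • P p.2 p.1)
  have hY : ContDiff ℝ ∞ Y :=
    contDiff_const.prodMk ((κ.contDiff.comp contDiff_fst).smul
      ((hP.comp contDiff_snd).clm_apply contDiff_fst))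
  have hYc : HasCompactSupport Y := by
    refine HasCompactSupport.intro (K := Metric.closedBall (0 : D) 2 ×ˢ tsupport P)
      ?_ ?_
    · have : ProperSpace D := FiniteDimensional.proper_real D
      exact (isCompact_closedBall _ _).prod hc
    · intro p hp
      rw [mem_prod, not_and_or] at hp
      rcases hp with hp | hp
      · have h1 : κ p.1 = 0 := by
          apply κ.zero_of_le_dist
          rw [Metric.mem_closedBall, not_le] at hp
          exact hp.le
        simp only [Y, h1, zero_smul]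
        rfl
      · have h1 : P p.2 = 0 := image_eq_zero_of_notMem_tsupport hp
        simp only [Y, h1, _root_.zero_apply, smul_zero]
        rfl
  obtain ⟨F, hF, hF0, hFd, hFa⟩ := exists_flow hY hYc
  have hκ : ∀ a : D, ‖a‖ < 1 → κ a = 1 := fun a ha =>
    κ.one_of_mem_closedBall (by rw [mem_closedBall_zero_iff]; exact ha.le)
  have hfst : ∀ t x, (F t x).1 = x.1 := by
    intro t x
    have hd : ∀ t, HasDerivAt (fun t => (F t x).1) 0 t := fun t =>
      HasFDerivAt.comp_hasDerivAt (f := fun t : ℝ => F t x) t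
        (hasFDerivAt_fst (𝕜 := ℝ) (E := D) (F := E)) (hFd t x)
    have hconst := is_const_of_deriv_eq_zero (f := fun t => (F t x).1)
      (fun t => (hd t).differentiableAt) (fun t => (hd t).deriv) t 0
    simp only [hF0] at hconst
    exact hconst
  have hsnd : ∀ {c : ℝ → D × E} {c' : D × E} {t : ℝ}, HasDerivAt c c' t →
      HasDerivAt (fun s => (c s).2) c'.2 t := fun {c c' t} hc =>
    HasFDerivAt.comp_hasDerivAt (f := c) t
      (hasFDerivAt_snd (𝕜 := ℝ) (E := D) (F := E)) hc
  have hfst1 : ∀ t p q, (fderiv ℝ (F t) p q).1 = q.1 := by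
    intro t p q
    have hFt : ContDiff ℝ ∞ (F t) := hF.comp (contDiff_const.prodMk contDiff_id)
    have h1 : HasFDerivAt (F t) (fderiv ℝ (F t) p) p :=
      (hFt.differentiable (by simp) p).hasFDerivAt
    have h2 : HasFDerivAt (fun p => (F t p).1)
        ((ContinuousLinearMap.fst ℝ D E).comp (fderiv ℝ (F t) p)) p :=
      (hasFDerivAt_fst (𝕜 := ℝ) (E := D) (F := E)).comp p h1
    have h3 : (fun p => (F t p).1) = fun p => p.1 := funext fun p => hfst t p
    rw [h3] at h2
    have h4 := h2.unique (hasFDerivAt_fst (𝕜 := ℝ) (E := D) (F := E))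
    have h5 := congrArg (fun L : D × E →L[ℝ] D => L q) h4
    simpa using h5
  refine ⟨F, hF, hF0, hfst, ?_, ?_, hFa, ?_⟩
  · intro t a u ha
    have h1 := hsnd (hFd t (a, u))
    have h2 : (Y (F t (a, u))).2 = P (F t (a, u)).2 a := by
      simp only [Y, hfst]
      rw [hκ a ha, one_smul]
    rw [h2] at h1
    exact h1
  · intro t a u b v ha
    have h1 := Pool.Agent.V11199.HP.hasDerivAt_fderiv
      (X := fun p : ℝ × (D × E) => Y p.2) (hY.comp contDiff_snd) hF
      (fun t x => hFd t x) t (a, u) (b, v)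
    have h2 := hsnd h1
    refine h2.congr_deriv ?_
    -- the derivative of `Y` where `κ = 1`
    set p := F t (a, u) with hp
    have hp1 : p.1 = a := hfst t (a, u)
    set q := fderiv ℝ (F t) (a, u) (b, v) with hq
    have hq1 : q.1 = b := hfst1 t (a, u) (b, v)
    have hYe : (fun y => Y y) =ᶠ[𝓝 p] fun y => ((0 : D), P y.2 y.1) := by
      have hc1 : Continuous fun y : D × E => ‖y.1‖ := by fun_prop
      have : ∀ᶠ y in 𝓝 p, ‖y.1‖ < 1 := by
        refine hc1.continuousAt.eventually_lt continuousAt_const ?_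
        rw [hp1]; exact ha
      filter_upwards [this] with y hy
      simp only [Y]
      rw [hκ y.1 hy, one_smul]
    have hYd : HasFDerivAt (fun y : D × E => ((0 : D), P y.2 y.1))
        ((0 : D × E →L[ℝ] D).prod
          ((P p.2).comp (ContinuousLinearMap.fst ℝ D E) +
            (((fderiv ℝ P p.2).comp (ContinuousLinearMap.snd ℝ D E)).flip p.1))) p := by
      have e1 : HasFDerivAt (fun y : D × E => P y.2)
          ((fderiv ℝ P p.2).comp (ContinuousLinearMap.snd ℝ D E)) p :=
        ((hP.differentiable (by simp) p.2).hasFDerivAt).comp p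
          (hasFDerivAt_snd (𝕜 := ℝ) (E := D) (F := E))
      exact (hasFDerivAt_const _ p).prodMk
        (e1.clm_apply (hasFDerivAt_fst (𝕜 := ℝ) (E := D) (F := E)))
    have h3 : fderiv ℝ (fun y => Y y) p = _ := (hYd.congr_of_eventuallyEq hYe).fderiv
    change (fderiv ℝ (fun y => Y y) p q).2 = _
    rw [h3]
    simp only [ContinuousLinearMap.prod_apply, _root_.add_apply,
      ContinuousLinearMap.comp_apply, ContinuousLinearMap.flip_apply,
      ContinuousLinearMap.coe_fst', ContinuousLinearMap.coe_snd']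
    rw [hq1, hp1, add_comm]
  · intro t u
    have hd : ∀ t, HasDerivAt (fun t => (F t (0, u)).2) 0 t := fun t => by
      have h1 := hsnd (hFd t (0, u))
      have h2 : (Y (F t (0, u))).2 = 0 := by
        simp only [Y, hfst, map_zero, smul_zero]
      rw [h2] at h1
      exact h1
    have hconst := is_const_of_deriv_eq_zero (f := fun t => (F t (0, u)).2)
      (fun t => (hd t).differentiableAt) (fun t => (hd t).deriv) t 0
    simp only [hF0] at hconst
    exact Prod.ext (hfst t (0, u)) hconst

end Pool.Agent.V11199.PL
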