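import Mathlib
import Pool.Agent.V11199.PL.LocalFlow

/-!
# Transport of a Poisson tensor along Hamiltonian paths
-/

open Topology Filter Set
open scoped ContDiff NNReal

namespace Pool.Agent.V11199.PL

variable {E : Type} [NormedAddCommGroup E] [NormedSpace ℝ E]
variable {D : Type} [NormedAddCommGroup D] [NormedSpace ℝ D]

theorem pull_apply [FiniteDimensional ℝ D] (e : D ≃L[ℝ] (E →L[ℝ] ℝ)) (L : E →L[ℝ] E) (b : D) :
    pull e L b = e.symm ((e b).comp L) := rfl

theorem e_pull_apply [FiniteDimensional ℝ D] (e : D ≃L[ℝ] (E →L[ℝ] ℝ)) (L : E →L[ℝ] E) (b : D)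
    (w : E) : e (pull e L b) w = e b (L w) := by
  rw [pull_apply, e.apply_symm_apply]
  rfl

theorem pull_comp [FiniteDimensional ℝ D] (e : D ≃L[ℝ] (E →L[ℝ] ℝ)) (L M : E →L[ℝ] E) :
    pull e (L.comp M) = (pull e M).comp (pull e L) := by
  ext1 b
  apply e.injective
  ext1 w
  rw [e_pull_apply, ContinuousLinearMap.comp_apply, ContinuousLinearMap.comp_apply, e_pull_apply,
    e_pull_apply]

theorem pull_id [FiniteDimensional ℝ D] (e : D ≃L[ℝ] (E →L[ℝ] ℝ)) :
    pull e (ContinuousLinearMap.id ℝ E) = ContinuousLinearMap.id ℝ D := by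
  ext1 b
  apply e.injective
  ext1 w
  rw [e_pull_apply]
  rfl

/-- `pull` as a continuous linear map of the endomorphism. -/
noncomputable def pullL [FiniteDimensional ℝ D] [FiniteDimensional ℝ E]
    (e : D ≃L[ℝ] (E →L[ℝ] ℝ)) : (E →L[ℝ] E) →L[ℝ] (D →L[ℝ] D) :=
  LinearMap.toContinuousLinearMap
    { toFun := fun L => pull e L
      map_add' := by
        intro L M
        ext1 b
        apply e.injective
        ext1 w
        simp only [e_pull_apply, _root_.add_apply, map_add]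
      map_smul' := by
        intro r M
        ext1 b
        apply e.injective
        ext1 w
        simp only [e_pull_apply, _root_.smul_apply, map_smul, RingHom.id_apply] }

theorem pullL_apply [FiniteDimensional ℝ D] [FiniteDimensional ℝ E]
    (e : D ≃L[ℝ] (E →L[ℝ] ℝ)) (L : E →L[ℝ] E) : pullL e L = pull e L := rfl

/-- The abstract transport lemma. -/
theorem transport [FiniteDimensional ℝ D] [FiniteDimensional ℝ E]
    (e : D ≃L[ℝ] (E →L[ℝ] ℝ)) {P : E → D →L[ℝ] E} (hP : ContDiff ℝ ∞ P)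
    {u x : ℝ → E} {A J : ℝ → (E →L[ℝ] E)} {K : ℝ}
    (hu : ∀ s ∈ Icc (0 : ℝ) 1, HasDerivAt u (x s) s)
    (hJ : ∀ s ∈ Icc (0 : ℝ) 1, HasDerivAt J ((A s).comp (J s)) s)
    (hJ0 : J 0 = ContinuousLinearMap.id ℝ E)
    (hA : ∀ s ∈ Icc (0 : ℝ) 1, ∀ b : D,
      fderiv ℝ P (u s) (x s) b = A s (P (u s) b) + P (u s) (pull e (A s) b))
    (hK : ∀ s ∈ Icc (0 : ℝ) 1, ‖A s‖ ≤ K) :
    ∀ s ∈ Icc (0 : ℝ) 1, ∀ b : D, J s (P (u 0) (pull e (J s) b)) = P (u s) b := by
  let Q : ℝ → (D →L[ℝ] E) := fun s => ((J s).comp ((P (u 0)).comp (pull e (J s)))) - P (u s)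
  let Q' : ℝ → (D →L[ℝ] E) := fun s => (A s).comp (Q s) + (Q s).comp (pull e (A s))
  have hQ : ∀ s ∈ Icc (0 : ℝ) 1, HasDerivAt Q (Q' s) s := by
    intro s hs
    have h1 := hJ s hs
    have h2 : HasDerivAt (fun s => pullL e (J s)) (pullL e ((A s).comp (J s))) s :=
      HasFDerivAt.comp_hasDerivAt (f := J) s (pullL e).hasFDerivAt h1
    have h3 : HasDerivAt (fun s => (P (u 0)).comp (pullL e (J s)))
        ((P (u 0)).comp (pullL e ((A s).comp (J s)))) s := by
      have := (hasDerivAt_const s (P (u 0))).clm_comp h2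
      simpa using this
    have h4 := h1.clm_comp h3
    have h5 : HasDerivAt (fun s => P (u s)) (fderiv ℝ P (u s) (x s)) s :=
      HasFDerivAt.comp_hasDerivAt (f := u) s
        ((hP.differentiable (by simp) (u s)).hasFDerivAt) (hu s hs)
    refine (h4.sub h5).congr_deriv ?_
    ext1 b
    have h6 := hA s hs b
    simp only [_root_.sub_apply, _root_.add_apply, ContinuousLinearMap.comp_apply, Q', Q,
      pullL_apply, pull_comp] at h6 ⊢
    rw [h6]
    simp only [map_sub]
    abel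
  have hb : ∀ s ∈ Icc (0 : ℝ) 1, ‖Q' s‖ ≤ (K + ‖pullL e‖ * K) * ‖Q s‖ := by
    intro s hs
    have h1 : ‖(A s).comp (Q s)‖ ≤ K * ‖Q s‖ :=
      (ContinuousLinearMap.opNorm_comp_le _ _).trans
        (mul_le_mul_of_nonneg_right (hK s hs) (norm_nonneg _))
    have h2 : ‖(Q s).comp (pull e (A s))‖ ≤ ‖pullL e‖ * K * ‖Q s‖ := by
      refine (ContinuousLinearMap.opNorm_comp_le _ _).trans ?_
      rw [mul_comm]
      refine mul_le_mul_of_nonneg_right ?_ (norm_nonneg _)
      exact ((pullL e).le_opNorm (A s)).trans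
        (mul_le_mul_of_nonneg_left (hK s hs) (norm_nonneg _))
    have h3 : ‖(A s).comp (Q s) + (Q s).comp (pull e (A s))‖
        ≤ ‖(A s).comp (Q s)‖ + ‖(Q s).comp (pull e (A s))‖ :=
      norm_add_le ((A s).comp (Q s)) ((Q s).comp (pull e (A s)))
    change ‖(A s).comp (Q s) + (Q s).comp (pull e (A s))‖ ≤ _
    linarith
  have hQ0 : Q 0 = 0 := by
    ext1 b
    simp only [Q, hJ0, _root_.sub_apply, ContinuousLinearMap.comp_apply, pull_id,
      ContinuousLinearMap.id_apply, sub_self, _root_.zero_apply]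
  intro s hs b
  have h1 := linear_zero (D := Q) (D' := Q') hQ hb hQ0 s hs
  have h2 := congrArg (fun L : D →L[ℝ] E => L b) h1
  simp only [Q, _root_.sub_apply, ContinuousLinearMap.comp_apply, _root_.zero_apply,
    sub_eq_zero] at h2
  exact h2

/-- The rank of the Poisson tensor. -/
noncomputable def rk (P : E → D →L[ℝ] E) (u : E) : ℕ :=
  Module.finrank ℝ (LinearMap.range (P u : D →ₗ[ℝ] E))

/-- If `J` is injective and transports `P u` to `P v`, the ranges correspond. -/
theorem range_of_transport [FiniteDimensional ℝ D] [FiniteDimensional ℝ E]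
    (e : D ≃L[ℝ] (E →L[ℝ] ℝ)) {P : E → D →L[ℝ] E} {u v : E}
    {J : E →L[ℝ] E} (hJ : Function.Injective J)
    (h : ∀ b : D, J (P u (pull e J b)) = P v b) :
    LinearMap.range (P v : D →ₗ[ℝ] E)
      = (LinearMap.range (P u : D →ₗ[ℝ] E)).map (J : E →ₗ[ℝ] E) := by
  have hcomp : CompleteSpace E := FiniteDimensional.complete ℝ E
  have hsurj : Function.Surjective J :=
    LinearMap.surjective_of_injective (f := (J : E →ₗ[ℝ] E)) hJ
  let j : E ≃L[ℝ] E := ContinuousLinearEquiv.ofBijective J (LinearMap.ker_eq_bot.2 hJ)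
    (LinearMap.range_eq_top.2 hsurj)
  have hj : ∀ w, j w = J w := fun w => rfl
  apply le_antisymm
  · rintro _ ⟨b, rfl⟩
    exact ⟨P u (pull e J b), ⟨_, rfl⟩, h b⟩
  · rintro _ ⟨_, ⟨c, rfl⟩, rfl⟩
    refine ⟨pull e (j.symm : E →L[ℝ] E) c, ?_⟩
    change P v _ = J (P u c)
    rw [← h]
    congr 2
    apply e.injective
    ext1 w
    rw [e_pull_apply, e_pull_apply, ContinuousLinearEquiv.coe_coe, ← hj, j.symm_apply_apply]

theorem rk_of_transport [FiniteDimensional ℝ D] [FiniteDimensional ℝ E]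
    (e : D ≃L[ℝ] (E →L[ℝ] ℝ)) {P : E → D →L[ℝ] E} {u v : E}
    {J : E →L[ℝ] E} (hJ : Function.Injective J)
    (h : ∀ b : D, J (P u (pull e J b)) = P v b) : rk P v = rk P u := by
  unfold rk
  rw [range_of_transport e hJ h]
  exact (Submodule.equivMapOfInjective (J : E →ₗ[ℝ] E) hJ _).finrank_eq.symm

end Pool.Agent.V11199.PL
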