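import Mathlib
import Pool.Agent.V11199.PL.Transport

/-!
# Hamiltonian paths: constancy of the rank and tangency of the flow box
-/

open Topology Filter Set
open scoped ContDiff NNReal

namespace Pool.Agent.V11199.PL

variable {E : Type} [NormedAddCommGroup E] [NormedSpace ℝ E]
variable {D : Type} [NormedAddCommGroup D] [NormedSpace ℝ D]

/-- The derivative of an operator-valued curve is determined pointwise. -/
theorem hasDerivAt_of_apply {F G : Type} [NormedAddCommGroup F] [NormedSpace ℝ F]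
    [NormedAddCommGroup G] [NormedSpace ℝ G] {J : ℝ → F →L[ℝ] G} {J' : F →L[ℝ] G} {s : ℝ}
    (hd : DifferentiableAt ℝ J s) (h : ∀ v, HasDerivAt (fun s => J s v) (J' v) s) :
    HasDerivAt J J' s := by
  refine hd.hasDerivAt.congr_deriv ?_
  ext1 v
  have h1 : HasDerivAt (fun s => J s v) (deriv J s v) s := by
    have := hd.hasDerivAt.clm_apply (hasDerivAt_const s v)
    simpa using this
  exact h1.unique (h v)

/-- The rank is constant along Hamiltonian paths. -/
theorem rk_const_path [FiniteDimensional ℝ E] [FiniteDimensional ℝ D]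
    (e : D ≃L[ℝ] (E →L[ℝ] ℝ)) {P : E → D →L[ℝ] E} {O : Set E} (hP : LocalPoisson e P O)
    {f : E → ℝ} (hf : ContDiff ℝ ∞ f) {v : ℝ → E}
    (hv : ∀ s ∈ Icc (0 : ℝ) 1, HasDerivWithinAt v (P (v s) (e.symm (fderiv ℝ f (v s)))) (Icc 0 1) s)
    (hO : ∀ s ∈ Icc (0 : ℝ) 1, v s ∈ O) : rk P (v 1) = rk P (v 0) := by
  have hcomp : CompleteSpace E := FiniteDimensional.complete ℝ E
  have hDf : ContDiff ℝ ∞ (fderiv ℝ f) := hf.fderiv_right (m := ∞) (by simp)
  have hDf' : ContDiff ℝ ∞ (fun u => e.symm (fderiv ℝ f u)) := e.symm.contDiff.comp hDf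
  let X : E → E := fun u => P u (e.symm (fderiv ℝ f u))
  have hX : ContDiff ℝ ∞ X := hP.smooth.clm_apply hDf'
  have hXc : HasCompactSupport X := by
    refine hP.compact.mono' (fun u hu => subset_tsupport P ?_)
    rw [Function.mem_support] at hu ⊢
    intro h
    apply hu
    simp only [X, h]
    rfl
  obtain ⟨K, hK⟩ := hX.lipschitzWith_of_hasCompactSupport hXc (by simp)
  obtain ⟨G, hG, hG0, hGd, hGa⟩ := exists_flow hX hXc
  have hGt : ∀ t, ContDiff ℝ ∞ (G t) := fun t => hG.comp (contDiff_const.prodMk contDiff_id)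
  have huniq : ∀ s ∈ Icc (0 : ℝ) 1, v s = G s (v 0) := by
    refine ODE_solution_unique_of_mem_Icc_right (v := fun _ => X)
      (s := fun _ => univ) (K := K) (fun _ _ => hK.lipschitzOnWith)
      (fun s hs => (hv s hs).continuousWithinAt)
      (fun s hs => (hv s ⟨hs.1, hs.2.le⟩).mono_of_mem_nhdsWithin (Icc_mem_nhdsGE_of_mem hs))
      (fun _ _ => trivial)
      (fun s _ => (hGd s (v 0)).continuousAt.continuousWithinAt)
      (fun s _ => (hGd s (v 0)).hasDerivWithinAt)
      (fun _ _ => trivial)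
      (by rw [hG0])
  have hOG : ∀ s ∈ Icc (0 : ℝ) 1, G s (v 0) ∈ O := fun s hs => by
    rw [← huniq s hs]; exact hO s hs
  let J : ℝ → E →L[ℝ] E := fun s => fderiv ℝ (G s) (v 0)
  have hJd : ∀ s, HasDerivAt J ((fderiv ℝ X (G s (v 0))).comp (J s)) s := by
    intro s
    refine hasDerivAt_of_apply ?_ ?_
    · have : ContDiff ℝ 1 (fun s => fderiv ℝ (G s) (v 0)) :=
        ContDiff.fderiv (m := 2) (by exact (hG.of_le (WithTop.coe_le_coe.2 (le_top : (2 : ℕ∞) ≤ ⊤))))
          contDiff_const (by norm_num)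
      exact this.differentiable (by simp) s
    · intro w
      exact Pool.Agent.V11199.HP.hasDerivAt_fderiv
        (X := fun p : ℝ × E => X p.2) (hX.comp contDiff_snd) hG hGd s (v 0) w
  have hJ0 : J 0 = ContinuousLinearMap.id ℝ E := by
    have : G 0 = id := funext hG0
    change fderiv ℝ (G 0) (v 0) = _
    rw [this, fderiv_id]
  obtain ⟨C, hC⟩ := (hXc.fderiv (𝕜 := ℝ)).exists_bound_of_continuous
    (hX.fderiv_right (m := ∞) (by simp)).continuous
  have hXd : ∀ u w, fderiv ℝ X u w
      = fderiv ℝ P u w (e.symm (fderiv ℝ f u)) + P u (e.symm (fderiv ℝ (fderiv ℝ f) u w)) := by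
    intro u w
    have h0 : HasFDerivAt (fun u => e.symm (fderiv ℝ f u))
        ((e.symm : (E →L[ℝ] ℝ) →L[ℝ] D).comp (fderiv ℝ (fderiv ℝ f) u)) u :=
      e.symm.hasFDerivAt.comp u ((hDf.differentiable (by simp) u).hasFDerivAt)
    have h1 := ((hP.smooth.differentiable (by simp) u).hasFDerivAt).clm_apply h0
    have h2 : fderiv ℝ X u = _ := h1.fderiv
    rw [h2]
    simp only [_root_.add_apply, ContinuousLinearMap.comp_apply, ContinuousLinearMap.flip_apply,
      ContinuousLinearEquiv.coe_coe]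
    rw [add_comm]
  have hA : ∀ u ∈ O, ∀ b : D,
      fderiv ℝ P u (X u) b = fderiv ℝ X u (P u b) + P u (pull e (fderiv ℝ X u) b) := by
    intro u hu b
    have hs : IsSymmSndFDerivAt ℝ f u :=
      (hf.contDiffAt (x := u)).isSymmSndFDerivAt (by
        rw [minSmoothness_of_isRCLikeNormedField]
        exact WithTop.coe_le_coe.2 (le_top : (2 : ℕ∞) ≤ ⊤))
    have h1 : pull e (fderiv ℝ X u) b = pull e ((fderiv ℝ P u).flip (e.symm (fderiv ℝ f u))) b
        - e.symm (fderiv ℝ (fderiv ℝ f) u (P u b)) := by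
      apply e.injective
      ext1 w
      rw [map_sub, _root_.sub_apply, e_pull_apply, e_pull_apply, e.apply_symm_apply, hXd, map_add,
        ContinuousLinearMap.flip_apply, hP.skew u hu b (e.symm (fderiv ℝ (fderiv ℝ f) u w)),
        e.apply_symm_apply, hs.eq w (P u b)]
      ring
    rw [h1, map_sub, hXd, hP.jacobi u hu (e.symm (fderiv ℝ f u)) b]
    abel
  have htr := transport e hP.smooth (u := fun s => G s (v 0)) (x := fun s => X (G s (v 0)))
    (A := fun s => fderiv ℝ X (G s (v 0))) (J := J) (K := C)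
    (fun s _ => hGd s (v 0)) (fun s _ => hJd s) hJ0
    (fun s hs b => hA _ (hOG s hs) b) (fun s _ => hC _) 1 (by simp)
  have hinj : Function.Injective (J 1) := by
    have h1 : ∀ w, fderiv ℝ (G (-1)) (G 1 (v 0)) (J 1 w) = w := by
      intro w
      have h2 : HasFDerivAt (fun x => G (-1) (G 1 x))
          ((fderiv ℝ (G (-1)) (G 1 (v 0))).comp (fderiv ℝ (G 1) (v 0))) (v 0) :=
        (((hGt (-1)).differentiable (by simp) _).hasFDerivAt).comp (v 0)
          (((hGt 1).differentiable (by simp) _).hasFDerivAt)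
      have h3 : (fun x => G (-1) (G 1 x)) = fun x => x := by
        funext x
        rw [← hGa, neg_add_cancel, hG0]
      rw [h3] at h2
      have h4 := h2.unique (hasFDerivAt_id (v 0))
      have h5 := congrArg (fun L : E →L[ℝ] E => L w) h4
      simpa using h5
    intro w₁ w₂ h
    rw [← h1 w₁, ← h1 w₂, h]
  have hv1 : v 1 = G 1 (v 0) := huniq 1 (by simp)
  rw [hv1]
  refine rk_of_transport e hinj ?_
  intro b
  have := htr b
  simp only [hG0] at this
  exact this

/-- The spatial derivative of the flow of linear Hamiltonians. -/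
noncomputable def Jop (F : ℝ → D × E → D × E) (a : D) (u : E) (s : ℝ) :
    E →L[ℝ] E :=
  (ContinuousLinearMap.snd ℝ D E).comp
    ((fderiv ℝ (F s) (a, u)).comp (ContinuousLinearMap.inr ℝ D E))

theorem FlowData.contDiff_time {P : E → D →L[ℝ] E}
    {F : ℝ → D × E → D × E} (hF : FlowData P F) (t : ℝ) :
    ContDiff ℝ ∞ (F t) := hF.smooth.comp (contDiff_const.prodMk contDiff_id)

theorem FlowData.fderiv_fst {P : E → D →L[ℝ] E}
    {F : ℝ → D × E → D × E} (hF : FlowData P F) (t : ℝ)
    (p q : D × E) : (fderiv ℝ (F t) p q).1 = q.1 := by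
  have h1 : HasFDerivAt (F t) (fderiv ℝ (F t) p) p :=
    ((hF.contDiff_time t).differentiable (by simp) p).hasFDerivAt
  have h2 : HasFDerivAt (fun p => (F t p).1)
      ((ContinuousLinearMap.fst ℝ D E).comp (fderiv ℝ (F t) p)) p :=
    (hasFDerivAt_fst (𝕜 := ℝ) (E := D) (F := E)).comp p h1
  have h3 : (fun p => (F t p).1) = fun p => p.1 := funext fun p => hF.fst t p
  rw [h3] at h2
  have h4 := h2.unique (hasFDerivAt_fst (𝕜 := ℝ) (E := D) (F := E))
  have h5 := congrArg (fun L : D × E →L[ℝ] D => L q) h4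
  simpa using h5

theorem FlowData.Jop_deriv {P : E → D →L[ℝ] E}
    {F : ℝ → D × E → D × E} (hF : FlowData P F) {a : D}
    (ha : ‖a‖ < 1) (u : E) (s : ℝ) :
    HasDerivAt (Jop F a u) (((fderiv ℝ P (F s (a, u)).2).flip a).comp (Jop F a u s)) s := by
  refine hasDerivAt_of_apply ?_ ?_
  · have : ContDiff ℝ 1 (fun s => fderiv ℝ (F s) (a, u)) :=
      ContDiff.fderiv (m := 2) (by exact (hF.smooth.of_le (WithTop.coe_le_coe.2 (le_top : (2 : ℕ∞) ≤ ⊤))))
        contDiff_const (by norm_num)
    have h2 : ContDiff ℝ 1 (Jop F a u) := contDiff_const.clm_comp (this.clm_comp contDiff_const)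
    exact h2.differentiable (by simp) s
  · intro w
    have h1 := hF.vari s a u 0 w ha
    rw [map_zero, add_zero] at h1
    exact h1

theorem FlowData.Jop_injective {P : E → D →L[ℝ] E}
    {F : ℝ → D × E → D × E} (hF : FlowData P F) (a : D)
    (u : E) : Function.Injective (Jop F a u 1) := by
  have h1 : ∀ w, (fderiv ℝ (F (-1)) (F 1 (a, u)) (0, Jop F a u 1 w)).2 = w := by
    intro w
    have h2 : HasFDerivAt (fun x => F (-1) (F 1 x))
        ((fderiv ℝ (F (-1)) (F 1 (a, u))).comp (fderiv ℝ (F 1) (a, u))) (a, u) :=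
      (((hF.contDiff_time (-1)).differentiable (by simp) _).hasFDerivAt).comp (a, u)
        (((hF.contDiff_time 1).differentiable (by simp) _).hasFDerivAt)
    have h3 : (fun x => F (-1) (F 1 x)) = fun x => x := by
      funext x
      rw [← hF.add, neg_add_cancel, hF.zero]
    rw [h3] at h2
    have h4 := h2.unique (hasFDerivAt_id (a, u))
    have h5 := congrArg (fun L : D × E →L[ℝ] D × E => (L (0, w)).2) h4
    have h6 : fderiv ℝ (F 1) (a, u) (0, w) = (0, Jop F a u 1 w) :=
      Prod.ext (hF.fderiv_fst 1 (a, u) (0, w)) rfl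
    simp only [ContinuousLinearMap.comp_apply] at h5
    rw [h6] at h5
    exact h5
  intro w₁ w₂ h
  rw [← h1 w₁, ← h1 w₂, h]

/-- The image of the flow box in the parameter directions is tangent to the leaves, and the rank
is constant along the flow. -/
theorem FlowData.tangent [FiniteDimensional ℝ E] [FiniteDimensional ℝ D]
    (e : D ≃L[ℝ] (E →L[ℝ] ℝ)) {P : E → D →L[ℝ] E} {O : Set E}
    (hP : LocalPoisson e P O) {F : ℝ → D × E → D × E} (hF : FlowData P F)
    {a : D} (ha : ‖a‖ < 1) {u : E} (hO : ∀ s ∈ Icc (0 : ℝ) 1, (F s (a, u)).2 ∈ O) :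
    rk P (F 1 (a, u)).2 = rk P u ∧ ∀ b : D, (fderiv ℝ (F 1) (a, u) (b, 0)).2
      ∈ LinearMap.range (P (F 1 (a, u)).2 : D →ₗ[ℝ] E) := by
  have hcomp : CompleteSpace E := FiniteDimensional.complete ℝ E
  let X : E → E := fun u => P u a
  have hX : ContDiff ℝ ∞ X := hP.smooth.clm_apply contDiff_const
  have hXc : HasCompactSupport X := by
    refine hP.compact.mono' (fun u hu => subset_tsupport P ?_)
    rw [Function.mem_support] at hu ⊢
    intro h
    apply hu
    simp only [X, h]
    rfl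
  obtain ⟨C, hC⟩ := (hXc.fderiv (𝕜 := ℝ)).exists_bound_of_continuous
    (hX.fderiv_right (m := ∞) (by simp)).continuous
  have hXd : ∀ u, fderiv ℝ X u = (fderiv ℝ P u).flip a := by
    intro u
    have h1 := ((hP.smooth.differentiable (by simp) u).hasFDerivAt).clm_apply
      (hasFDerivAt_const a u)
    have h2 : fderiv ℝ X u = _ := h1.fderiv
    rw [h2]
    ext1 w
    simp only [_root_.add_apply, ContinuousLinearMap.comp_apply, ContinuousLinearMap.flip_apply,
      _root_.zero_apply, map_zero, zero_add]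
  have hK : ∀ s, ‖(fderiv ℝ P (F s (a, u)).2).flip a‖ ≤ C := by
    intro s
    rw [← hXd]
    exact hC _
  have hJ0 : Jop F a u 0 = ContinuousLinearMap.id ℝ E := by
    have : F 0 = id := funext hF.zero
    unfold Jop
    rw [this, fderiv_id]
    ext w
    simp
  have h0 : (F 0 (a, u)).2 = u := by rw [hF.zero]
  have hjac : ∀ s ∈ Icc (0 : ℝ) 1, ∀ b : D,
      fderiv ℝ P (F s (a, u)).2 (P (F s (a, u)).2 a) b
        = (fderiv ℝ P (F s (a, u)).2).flip a (P (F s (a, u)).2 b)
          + P (F s (a, u)).2 (pull e ((fderiv ℝ P (F s (a, u)).2).flip a) b) := by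
    intro s hs b
    rw [ContinuousLinearMap.flip_apply]
    exact hP.jacobi _ (hO s hs) a b
  have htr := transport e hP.smooth (u := fun s => (F s (a, u)).2)
    (x := fun s => P (F s (a, u)).2 a)
    (A := fun s => (fderiv ℝ P (F s (a, u)).2).flip a) (J := Jop F a u) (K := C)
    (fun s _ => hF.deriv s a u ha) (fun s _ => hF.Jop_deriv ha u s) hJ0
    hjac (fun s _ => hK s)
  simp only [h0] at htr
  have hinj := hF.Jop_injective a u
  refine ⟨rk_of_transport e hinj (htr 1 (by simp)), ?_⟩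
  intro b
  -- Duhamel
  have hJc : Continuous (Jop F a u) :=
    continuous_iff_continuousAt.2 fun s => (hF.Jop_deriv ha u s).continuousAt
  have hcompD : CompleteSpace D := FiniteDimensional.complete ℝ D
  have hbJ : Continuous fun s => pull e (Jop F a u s) b := by
    have h1 : Continuous fun s => pullL e (Jop F a u s) := (pullL e).continuous.comp hJc
    exact h1.clm_apply continuous_const
  let ζ : ℝ → D := fun s => ∫ τ in (0 : ℝ)..s, pull e (Jop F a u τ) b
  have hζ : ∀ s, HasDerivAt ζ (pull e (Jop F a u s) b) s := fun s =>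
    (hbJ.integral_hasStrictDerivAt 0 s).hasDerivAt
  let Q : ℝ → E := fun s => (fderiv ℝ (F s) (a, u) (b, 0)).2 - Jop F a u s (P u (ζ s))
  let Q' : ℝ → E := fun s => (fderiv ℝ P (F s (a, u)).2).flip a (Q s)
  have hD : ∀ s ∈ Icc (0 : ℝ) 1, HasDerivAt Q (Q' s) s := by
    intro s hs
    have h1 := hF.vari s a u b 0 ha
    have h2 : HasDerivAt (fun s => P u (ζ s)) (P u (pull e (Jop F a u s) b)) s :=
      HasFDerivAt.comp_hasDerivAt (f := ζ) s (P u).hasFDerivAt (hζ s)
    have h3 := (hF.Jop_deriv ha u s).clm_apply h2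
    refine (h1.sub h3).congr_deriv ?_
    have h4 := htr s hs b
    simp only [ContinuousLinearMap.comp_apply, Q', Q, map_sub]
    rw [h4]
    simp only [ContinuousLinearMap.flip_apply]
    abel
  have hb : ∀ s ∈ Icc (0 : ℝ) 1, ‖Q' s‖ ≤ C * ‖Q s‖ := fun s _ =>
    (((fderiv ℝ P (F s (a, u)).2).flip a).le_opNorm _).trans
      (mul_le_mul_of_nonneg_right (hK s) (norm_nonneg _))
  have hD0 : Q 0 = 0 := by
    have hF0 : F 0 = id := funext hF.zero
    simp only [Q, hJ0, ζ, intervalIntegral.integral_same, map_zero, hF0, fderiv_id]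
    simp
  have h1 := linear_zero hD hb hD0 1 (by simp)
  have h2 : (fderiv ℝ (F 1) (a, u) (b, 0)).2 = Jop F a u 1 (P u (ζ 1)) := sub_eq_zero.1 h1
  rw [range_of_transport e hinj (htr 1 (by simp)), h2]
  exact ⟨P u (ζ 1), ⟨_, rfl⟩, rfl⟩

end Pool.Agent.V11199.PL
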