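import Mathlib
import Pool.Agent.V11199.PL.Paths

/-!
# The flow box
-/

open Topology Filter Set
open scoped ContDiff NNReal

namespace Pool.Agent.V11199.PL

variable {E : Type} [NormedAddCommGroup E] [NormedSpace ℝ E]
variable {D : Type} [NormedAddCommGroup D] [NormedSpace ℝ D]

/-- A flow box around a point `u₀`: paths of rank-`rk P u₀` points tangent to the leaves have
constant transverse coordinate `Z`, and points with the transverse coordinate of `u₀` are reached
from `u₀` along a Hamiltonian path. -/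
theorem exists_box [FiniteDimensional ℝ E] [FiniteDimensional ℝ D]
    (e : D ≃L[ℝ] (E →L[ℝ] ℝ)) {P : E → D →L[ℝ] E} {O : Set E}
    (hP : LocalPoisson e P O) {u₀ : E} {O' : Set E} (hO' : IsOpen O') (hO'O : O' ⊆ O)
    (hu₀ : u₀ ∈ O') :
    ∃ (V : Set E) (Z : E → E), IsOpen V ∧ u₀ ∈ V ∧ V ⊆ O' ∧ ContinuousOn Z V ∧
      (∀ (w w' : ℝ → E) (α β : ℝ), α ≤ β →
        (∀ s ∈ Icc α β, w s ∈ V ∧ HasDerivWithinAt w (w' s) (Icc α β) s ∧
          w' s ∈ LinearMap.range (P (w s) : D →ₗ[ℝ] E) ∧ rk P (w s) = rk P u₀) →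
        Z (w β) = Z (w α)) ∧
      (∀ v ∈ V, Z v = Z u₀ → ∃ (a : D) (c : ℝ → E), c 0 = u₀ ∧ c 1 = v ∧
        ∀ s ∈ Icc (0 : ℝ) 1, c s ∈ O' ∧ HasDerivAt c (P (c s) a) s) := by
  have hcomp : CompleteSpace E := FiniteDimensional.complete ℝ E
  have hcompD : CompleteSpace D := FiniteDimensional.complete ℝ D
  obtain ⟨F, hF⟩ := exists_flowData hP.smooth hP.compact
  obtain ⟨T, hT⟩ := (LinearMap.ker (P u₀ : D →ₗ[ℝ] E)).exists_isCompl
  obtain ⟨N, hN⟩ := (LinearMap.range (P u₀ : D →ₗ[ℝ] E)).exists_isCompl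
  let ι : T × N →L[ℝ] D × E := (T.subtypeL).prodMap (N.subtypeL)
  have hι : ∀ q, ι q = ((q.1 : D), (q.2 : E)) := fun q => rfl
  let Ψ : T × N → E := fun q => (F 1 ((0, u₀) + ι q)).2
  have hιs : ContDiff ℝ ∞ ι := by
    have h1 := ContinuousLinearMap.contDiff (𝕜 := ℝ) (n := ∞) (E := T) (F := D) T.subtypeL
    have h2 := ContinuousLinearMap.contDiff (𝕜 := ℝ) (n := ∞) (E := N) (F := E) N.subtypeL
    have h3 : ContDiff ℝ ∞ (fun q : T × N => (q.1 : D)) := h1.comp contDiff_fst
    have h4 : ContDiff ℝ ∞ (fun q : T × N => (q.2 : E)) := h2.comp contDiff_snd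
    exact h3.prodMk h4
  have hΨs : ContDiff ℝ ∞ Ψ :=
    contDiff_snd.comp ((hF.contDiff_time 1).comp (contDiff_const.add hιs))
  have hΨd : ∀ q, HasFDerivAt Ψ ((ContinuousLinearMap.snd ℝ D E).comp
      ((fderiv ℝ (F 1) ((0, u₀) + ι q)).comp ι)) q := by
    intro q
    have h1 : HasFDerivAt (fun q => (0, u₀) + ι q) ι q := ι.hasFDerivAt.const_add _
    have h2 : HasFDerivAt (F 1) (fderiv ℝ (F 1) ((0, u₀) + ι q)) ((0, u₀) + ι q) :=
      ((hF.contDiff_time 1).differentiable (by simp) _).hasFDerivAt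
    exact (hasFDerivAt_snd (𝕜 := ℝ) (E := D) (F := E)).comp q (h2.comp q h1)
  -- the derivative at the origin
  have hd0 : ∀ (b : D) (n : E),
      (fderiv ℝ (F 1) (0, u₀) (b, n)).2 = P u₀ b + n := by
    intro b n
    have h1 : ∀ s, HasDerivAt (fun s => (fderiv ℝ (F s) (0, u₀) (b, n)).2 - s • P u₀ b) 0 s := by
      intro s
      have h2 := hF.vari s 0 u₀ b n (by simp)
      rw [map_zero, zero_add, hF.stat] at h2
      have h3 : HasDerivAt (fun s : ℝ => s • P u₀ b) (P u₀ b) s := by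
        simpa using (hasDerivAt_id s).smul_const (P u₀ b)
      exact (h2.sub h3).congr_deriv (sub_self _)
    have hconst := is_const_of_deriv_eq_zero
      (f := fun s => (fderiv ℝ (F s) (0, u₀) (b, n)).2 - s • P u₀ b)
      (fun t => (h1 t).differentiableAt) (fun t => (h1 t).deriv) 1 0
    have h0 : F 0 = id := funext hF.zero
    simp only [h0, fderiv_id, one_smul, zero_smul, sub_zero] at hconst
    have h4 : (fderiv ℝ (F 1) (0, u₀) (b, n)).2 - P u₀ b = n := hconst
    rw [sub_eq_iff_eq_add] at h4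
    rw [h4, add_comm]
  let L₀ : T × N →L[ℝ] E := (ContinuousLinearMap.snd ℝ D E).comp
      ((fderiv ℝ (F 1) (0, u₀)).comp ι)
  have hL₀ : ∀ q, L₀ q = P u₀ q.1 + q.2 := fun q => hd0 _ _
  have hker : LinearMap.ker (L₀ : T × N →ₗ[ℝ] E) = ⊥ := by
    rw [LinearMap.ker_eq_bot']
    intro q hq
    have h1 : P u₀ q.1 + (q.2 : E) = 0 := by rw [← hL₀]; exact hq
    have h2 : (q.2 : E) ∈ LinearMap.range (P u₀ : D →ₗ[ℝ] E) ⊓ N := by
      refine ⟨⟨-(q.1 : D), ?_⟩, q.2.2⟩
      change P u₀ (-(q.1 : D)) = _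
      rw [map_neg]
      exact neg_eq_of_add_eq_zero_right h1
    rw [hN.inf_eq_bot] at h2
    have h3 : (q.2 : E) = 0 := (Submodule.mem_bot ℝ).1 h2
    rw [h3, add_zero] at h1
    have h4 : (q.1 : D) ∈ LinearMap.ker (P u₀ : D →ₗ[ℝ] E) ⊓ T :=
      ⟨h1, q.1.2⟩
    rw [hT.inf_eq_bot] at h4
    have h5 : (q.1 : D) = 0 := (Submodule.mem_bot ℝ).1 h4
    exact Prod.ext (Subtype.ext h5) (Subtype.ext h3)
  have hran : LinearMap.range (L₀ : T × N →ₗ[ℝ] E) = ⊤ := by
    rw [LinearMap.range_eq_top]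
    intro w
    have h1 : w ∈ LinearMap.range (P u₀ : D →ₗ[ℝ] E) ⊔ N := by
      rw [hN.sup_eq_top]; trivial
    obtain ⟨_, ⟨c, rfl⟩, n, hn, rfl⟩ := Submodule.mem_sup.1 h1
    have h2 : c ∈ LinearMap.ker (P u₀ : D →ₗ[ℝ] E) ⊔ T := by
      rw [hT.sup_eq_top]; trivial
    obtain ⟨k, hk, t, ht, rfl⟩ := Submodule.mem_sup.1 h2
    refine ⟨(⟨t, ht⟩, ⟨n, hn⟩), ?_⟩
    change L₀ (⟨t, ht⟩, ⟨n, hn⟩) = P u₀ (k + t) + n
    rw [hL₀, map_add]
    have hk' : P u₀ k = 0 := hk
    rw [hk', zero_add]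
  let e₀ : (T × N) ≃L[ℝ] E := ContinuousLinearEquiv.ofBijective L₀ hker hran
  have he : (e₀ : T × N →L[ℝ] E) = L₀ := ContinuousLinearMap.ext fun q => rfl
  have hΨ0 : HasFDerivAt Ψ (e₀ : T × N →L[ℝ] E) 0 := by
    have h1 := hΨd 0
    rw [map_zero, add_zero] at h1
    rw [he]
    exact h1
  have hΨu : Ψ 0 = u₀ := by
    change (F 1 ((0, u₀) + ι 0)).2 = u₀
    rw [map_zero, add_zero, hF.stat]
  have hca : ContDiffAt ℝ ∞ Ψ 0 := hΨs.contDiffAt
  let φ := hca.toOpenPartialHomeomorph Ψ hΨ0 (by simp)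
  have hφ : ∀ q, φ q = Ψ q := fun q => rfl
  have h0s : (0 : T × N) ∈ φ.source := hca.mem_toOpenPartialHomeomorph_source hΨ0 (by simp)
  have h0t : u₀ ∈ φ.target := by
    have := hca.image_mem_toOpenPartialHomeomorph_target hΨ0 (by simp)
    rw [hΨu] at this
    exact this
  have hsymm0 : φ.symm u₀ = 0 := by
    have := φ.left_inv h0s
    rw [hφ, hΨu] at this
    exact this
  have hsmooth : ContDiffAt ℝ ∞ φ.symm u₀ := by
    have := hca.to_localInverse hΨ0 (by simp)
    rw [hΨu] at this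
    exact this
  -- the good neighbourhood
  have ev1 : ∀ᶠ q : T × N in 𝓝 0, ‖(q.1 : D)‖ < 1 := by
    have hc : Continuous fun q : T × N => ‖(q.1 : D)‖ := by fun_prop
    refine hc.continuousAt.eventually_lt continuousAt_const ?_
    simp
  have ev2 : ∀ᶠ q : T × N in 𝓝 0, ∀ s ∈ Icc (0 : ℝ) 1, (F s ((0, u₀) + ι q)).2 ∈ O' := by
    refine isCompact_Icc.eventually_forall_of_forall_eventually ?_
    intro s _
    have hc : Continuous fun z : (T × N) × ℝ => (F z.2 ((0, u₀) + ι z.1)).2 := by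
      have h1 : Continuous fun z : (T × N) × ℝ => (z.2, ((0 : D), u₀) + ι z.1) :=
        continuous_snd.prodMk (continuous_const.add (ι.continuous.comp continuous_fst))
      exact continuous_snd.comp (hF.smooth.continuous.comp h1)
    refine hc.continuousAt.eventually_mem ?_
    refine hO'.mem_nhds ?_
    change (F s ((0, u₀) + ι 0)).2 ∈ O'
    rw [map_zero, add_zero, hF.stat]
    exact hu₀
  have ev : ∀ᶠ v in 𝓝 u₀, v ∈ φ.target ∧ v ∈ O' ∧ ContDiffAt ℝ 1 φ.symm v ∧
      ‖((φ.symm v).1 : D)‖ < 1 ∧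
      ∀ s ∈ Icc (0 : ℝ) 1, (F s ((0, u₀) + ι (φ.symm v))).2 ∈ O' := by
    have hcont : Tendsto φ.symm (𝓝 u₀) (𝓝 0) := by
      have := hsmooth.continuousAt
      rwa [ContinuousAt, hsymm0] at this
    filter_upwards [φ.open_target.mem_nhds h0t, hO'.mem_nhds hu₀,
      (hsmooth.of_le (by simp : (1 : WithTop ℕ∞) ≤ ∞)).eventually (by simp),
      hcont.eventually ev1, hcont.eventually ev2] with v h1 h2 h3 h4 h5
    exact ⟨h1, h2, h3, h4, h5⟩
  obtain ⟨V, hV, hVo, huV⟩ := eventually_nhds_iff.1 ev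
  refine ⟨V, fun v => ((φ.symm v).2 : E), hVo, huV, fun v hv => (hV v hv).2.1, ?_, ?_, ?_⟩
  · intro v hv
    exact (continuous_subtype_val.continuousAt.comp
      (continuous_snd.continuousAt.comp (hV v hv).2.2.1.continuousAt)).continuousWithinAt
  · intro w w' α β hαβ hw
    have hkey : ∀ s ∈ Icc α β, HasDerivWithinAt (fun s => ((φ.symm (w s)).2 : E)) 0
        (Icc α β) s := by
      intro s hs
      obtain ⟨hwV, hwd, hwr, hwk⟩ := hw s hs
      obtain ⟨v1, v2, v3, v4, v5⟩ := hV _ hwV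
      set q := φ.symm (w s) with hq
      have hqw : Ψ q = w s := φ.right_inv v1
      have hsd : HasFDerivAt φ.symm (fderiv ℝ φ.symm (w s)) (w s) :=
        (v3.differentiableAt (by simp)).hasFDerivAt
      set L : T × N →L[ℝ] E := (ContinuousLinearMap.snd ℝ D E).comp
        ((fderiv ℝ (F 1) ((0, u₀) + ι q)).comp ι) with hL
      have hΨq : HasFDerivAt Ψ L q := hΨd q
      -- `fderiv φ.symm ∘ L = id`
      have hleft : ∀ p, fderiv ℝ φ.symm (w s) (L p) = p := by
        have h1 : HasFDerivAt φ.symm (fderiv ℝ φ.symm (w s)) (Ψ q) := by rw [hqw]; exact hsd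
        have h2 := h1.comp q hΨq
        have h3 : (fun p => φ.symm (Ψ p)) =ᶠ[𝓝 q] fun p => p := by
          filter_upwards [φ.open_source.mem_nhds (φ.map_target v1)] with p hp
          exact φ.left_inv hp
        have h4 : HasFDerivAt (fun p : T × N => p)
            ((fderiv ℝ φ.symm (w s)).comp L) q := h2.congr_of_eventuallyEq h3.symm
        have h5 := h4.unique (hasFDerivAt_id q)
        intro p
        have h6 := congrArg (fun M : T × N →L[ℝ] T × N => M p) h5
        exact h6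
      have hLinj : Function.Injective L := fun p₁ p₂ h => by
        rw [← hleft p₁, ← hleft p₂, h]
      -- the tangent space to the plaque
      have ha1 : ‖(q.1 : D)‖ < 1 := v4
      have hq2 : ((0 : D), u₀) + ι q = ((q.1 : D), u₀ + (q.2 : E)) := by
        rw [hι]
        exact Prod.ext (zero_add _) rfl
      have htan := hF.tangent e hP ha1 (u := u₀ + (q.2 : E)) (fun s hs => by
        have := v5 s hs
        rw [hq2] at this
        exact hO'O this)
      have hwq : (F 1 ((q.1 : D), u₀ + (q.2 : E))).2 = w s := by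
        rw [← hq2]; exact hqw
      rw [hwq] at htan
      let R : Submodule ℝ E := LinearMap.range
        ((L : T × N →ₗ[ℝ] E).comp (LinearMap.inl ℝ T N))
      have hRle : R ≤ LinearMap.range (P (w s) : D →ₗ[ℝ] E) := by
        rintro _ ⟨b, rfl⟩
        have h1 := htan.2 (b : D)
        have h2 : (L : T × N →ₗ[ℝ] E).comp (LinearMap.inl ℝ T N) b
            = (fderiv ℝ (F 1) ((q.1 : D), u₀ + (q.2 : E)) ((b : D), 0)).2 := by
          rw [← hq2]
          rfl
        rw [h2]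
        exact h1
      have hRdim : Module.finrank ℝ R
          = Module.finrank ℝ (LinearMap.range (P (w s) : D →ₗ[ℝ] E)) := by
        have h1 : Module.finrank ℝ R = Module.finrank ℝ T := by
          refine LinearMap.finrank_range_of_inj ?_
          intro b₁ b₂ hb
          have h2 : ((b₁, 0) : T × N) = (b₂, 0) := hLinj hb
          exact congrArg Prod.fst h2
        have h2 : rk P (w s) = rk P u₀ := hwk
        unfold rk at h2
        rw [h1, h2]
        have h3 := (P u₀ : D →ₗ[ℝ] E).finrank_range_add_finrank_ker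
        have h4 := Submodule.finrank_add_eq_of_isCompl hT
        omega
      have hReq := Submodule.eq_of_le_of_finrank_eq hRle hRdim
      rw [← hReq] at hwr
      obtain ⟨b, hb⟩ := hwr
      have hb' : L (b, 0) = w' s := hb
      have hqd : HasDerivWithinAt (fun s => φ.symm (w s)) (fderiv ℝ φ.symm (w s) (w' s))
          (Icc α β) s := HasFDerivAt.comp_hasDerivWithinAt (f := w) s hsd hwd
      have h7 : fderiv ℝ φ.symm (w s) (w' s) = (b, 0) := by rw [← hb', hleft]
      rw [h7] at hqd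
      have h8 : HasFDerivAt (fun p : T × N => (p.2 : E))
          ((N.subtypeL).comp (ContinuousLinearMap.snd ℝ T N)) (φ.symm (w s)) :=
        ((N.subtypeL).comp (ContinuousLinearMap.snd ℝ T N)).hasFDerivAt
      have h9 := HasFDerivAt.comp_hasDerivWithinAt (f := fun s => φ.symm (w s)) s h8 hqd
      refine h9.congr_deriv ?_
      simp
    have hcont : ContinuousOn (fun s => ((φ.symm (w s)).2 : E)) (Icc α β) :=
      fun s hs => (hkey s hs).continuousWithinAt
    exact constant_of_has_deriv_right_zero hcont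
      (fun s hs => (hkey s ⟨hs.1, hs.2.le⟩).mono_of_mem_nhdsWithin (Icc_mem_nhdsGE_of_mem hs))
      β ⟨hαβ, le_rfl⟩
  · intro v hv hZ
    obtain ⟨v1, v2, v3, v4, v5⟩ := hV _ hv
    set q := φ.symm v with hq
    have hqw : Ψ q = v := φ.right_inv v1
    have hq2 : (q.2 : E) = 0 := by
      have h1 : (q.2 : E) = ((φ.symm u₀).2 : E) := hZ
      rw [hsymm0] at h1
      exact h1
    have hq3 : ((0 : D), u₀) + ι q = ((q.1 : D), u₀) := by
      rw [hι, hq2]
      exact Prod.ext (zero_add _) (add_zero _)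
    refine ⟨q.1, fun s => (F s ((q.1 : D), u₀)).2, ?_, ?_, ?_⟩
    · simp only [hF.zero]
    · change (F 1 ((q.1 : D), u₀)).2 = v
      rw [← hq3]
      exact hqw
    · intro s hs
      refine ⟨?_, hF.deriv s _ u₀ v4⟩
      have := v5 s hs
      rw [hq3] at this
      exact this

end Pool.Agent.V11199.PL
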