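import Mathlib

/-!
# Poisson manifolds, Poisson diffeomorphisms, symplectic leaves and the leaf topology
-/

open Set Topology
open scoped Manifold ContDiff

namespace Pool.Agent.V11199.PL

variable {n : ℕ} {M : Type*} [TopologicalSpace M] [ChartedSpace (EuclideanSpace ℝ (Fin n)) M]

/-- The bilinear map `B` on `C^∞(M)` is a Poisson bracket: it is skew, and it satisfies the
Leibniz rule and the Jacobi identity. -/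
structure IsPoissonBracket
    (B : C^∞⟮𝓡 n, M; ℝ⟯ →ₗ[ℝ] C^∞⟮𝓡 n, M; ℝ⟯ →ₗ[ℝ] C^∞⟮𝓡 n, M; ℝ⟯) : Prop where
  skew : ∀ f g, B f g = -B g f
  leibniz : ∀ f g h, B f (g * h) = B f g * h + g * B f h
  jacobi : ∀ f g h, B f (B g h) = B (B f g) h + B g (B f h)

/-- `ψ` is a Poisson diffeomorphism: `{f ∘ ψ, g ∘ ψ} = {f, g} ∘ ψ`. -/
def IsPoissonDiffeo
    (B : C^∞⟮𝓡 n, M; ℝ⟯ →ₗ[ℝ] C^∞⟮𝓡 n, M; ℝ⟯ →ₗ[ℝ] C^∞⟮𝓡 n, M; ℝ⟯)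
    (ψ : M ≃ₘ^∞⟮𝓡 n, 𝓡 n⟯ M) : Prop :=
  ∀ f g : C^∞⟮𝓡 n, M; ℝ⟯, B (f.comp ⟨ψ, ψ.contMDiff⟩) (g.comp ⟨ψ, ψ.contMDiff⟩)
    = (B f g).comp ⟨ψ, ψ.contMDiff⟩

/-- `φ` is a Poisson homeomorphism: a limit, in the compact-open topology, of Poisson
diffeomorphisms. -/
def IsPoissonHomeo
    (B : C^∞⟮𝓡 n, M; ℝ⟯ →ₗ[ℝ] C^∞⟮𝓡 n, M; ℝ⟯ →ₗ[ℝ] C^∞⟮𝓡 n, M; ℝ⟯) (φ : M ≃ₜ M) : Prop :=
  ∃ ψ : ℕ → M ≃ₘ^∞⟮𝓡 n, 𝓡 n⟯ M, (∀ k, IsPoissonDiffeo B (ψ k)) ∧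
    Filter.Tendsto (fun k => (⟨ψ k, (ψ k).continuous⟩ : C(M, M))) Filter.atTop
      (𝓝 ⟨φ, φ.continuous⟩)

/-- `y` is the end point of an integral curve `γ : [0, 1] → M`, starting at `x` and contained in
`U`, of a Hamiltonian vector field `{f, ·}`. -/
def HamStep
    (B : C^∞⟮𝓡 n, M; ℝ⟯ →ₗ[ℝ] C^∞⟮𝓡 n, M; ℝ⟯ →ₗ[ℝ] C^∞⟮𝓡 n, M; ℝ⟯) (U : Set M) (x y : M) : Prop :=
  ∃ (f : C^∞⟮𝓡 n, M; ℝ⟯) (γ : ℝ → M), γ 0 = x ∧ γ 1 = y ∧ ContinuousOn γ (Icc 0 1) ∧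
    ∀ s ∈ Icc (0 : ℝ) 1, γ s ∈ U ∧ ∀ g : C^∞⟮𝓡 n, M; ℝ⟯,
      HasDerivWithinAt (fun t => g (γ t)) (B f g (γ s)) (Icc 0 1) s

/-- The points that can be reached from `x` inside `U` along finitely many integral curves of
Hamiltonian vector fields. -/
def reach
    (B : C^∞⟮𝓡 n, M; ℝ⟯ →ₗ[ℝ] C^∞⟮𝓡 n, M; ℝ⟯ →ₗ[ℝ] C^∞⟮𝓡 n, M; ℝ⟯) (U : Set M) (x : M) : Set M :=
  {y | Relation.ReflTransGen (HamStep B U) x y}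

/-- The symplectic leaf through `x`. -/
def leaf
    (B : C^∞⟮𝓡 n, M; ℝ⟯ →ₗ[ℝ] C^∞⟮𝓡 n, M; ℝ⟯ →ₗ[ℝ] C^∞⟮𝓡 n, M; ℝ⟯) (x : M) : Set M :=
  reach B univ x

/-- The leaf topology on `M`: it has as a subbasis the sets of points reachable from a point
inside an open set. -/
def leafTopology
    (B : C^∞⟮𝓡 n, M; ℝ⟯ →ₗ[ℝ] C^∞⟮𝓡 n, M; ℝ⟯ →ₗ[ℝ] C^∞⟮𝓡 n, M; ℝ⟯) : TopologicalSpace M :=
  TopologicalSpace.generateFrom {S | ∃ (U : Set M) (x : M), IsOpen U ∧ x ∈ U ∧ S = reach B U x}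

end Pool.Agent.V11199.PL
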