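import Mathlib
import Pool.Agent.GR.Flow

/-!
# Hadamard's lemma
-/

open Topology Filter Set
open scoped ContDiff NNReal

namespace Pool.Agent.V11199.PL

variable {E : Type} [NormedAddCommGroup E] [NormedSpace ℝ E]

/-- The segment from the origin. -/
noncomputable def slope (E : Type) [NormedAddCommGroup E] [NormedSpace ℝ E] :
    E →L[ℝ] C(unitInterval, E) :=
  LinearMap.mkContinuous
    { toFun := fun v => (⟨fun s => (s : ℝ) • v, by fun_prop⟩ : C(unitInterval, E))
      map_add' := fun x y => by ext s; simp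
      map_smul' := fun c x => by
        ext s
        simp only [ContinuousMap.coe_mk, ContinuousMap.smul_apply, RingHom.id_apply]
        rw [smul_comm] } 1 (by
    intro v
    refine (ContinuousMap.norm_le _ (by positivity)).2 fun s => ?_
    change ‖(s : ℝ) • v‖ ≤ 1 * ‖v‖
    rw [norm_smul, Real.norm_eq_abs, abs_of_nonneg s.2.1]
    exact mul_le_mul_of_nonneg_right s.2.2 (norm_nonneg _))

theorem slope_apply (v : E) (s : unitInterval) : slope E v s = (s : ℝ) • v := rfl

/-- Smoothness of the average of a smooth function over segments. -/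
theorem contDiff_average {F : Type} [NormedAddCommGroup F] [NormedSpace ℝ F] {X : E → F}
    (hX : ContDiff ℝ ∞ X) (p : E) :
    ContDiff ℝ ∞ (fun u => ∫ s in (0 : ℝ)..1, X (p + s • (u - p))) := by
  let Z : C(E, F) := ⟨X, hX.continuous⟩
  let α : E → C(unitInterval, E) := fun u => Pool.Agent.GR.Flow.cst E p + slope E (u - p)
  have hα : ContDiff ℝ ∞ α :=
    contDiff_const.add ((slope E).contDiff.comp (contDiff_id.sub contDiff_const))
  have hN : ContDiff ℝ ∞ (fun β : C(unitInterval, E) => Z.comp β) := by
    rw [contDiff_infty]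
    intro m
    exact Pool.Agent.GR.Flow.contDiff_nem m Z (hX.of_le (by exact_mod_cast le_top))
  have h1 : ContDiff ℝ ∞ (fun u => Pool.Agent.GR.Flow.volt F (Z.comp (α u))
      (1 : unitInterval)) := by
    have h2 : ContDiff ℝ ∞ (fun u => Pool.Agent.GR.Flow.volt F (Z.comp (α u))) :=
      (Pool.Agent.GR.Flow.volt F).contDiff.comp (hN.comp hα)
    exact (ContinuousMap.evalCLM ℝ (1 : unitInterval)).contDiff.comp h2
  convert h1 using 2 with u
  rw [Pool.Agent.GR.Flow.volt_apply]
  change _ = ∫ r in (0 : ℝ)..((1 : unitInterval) : ℝ), _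
  rw [Icc.coe_one]
  refine intervalIntegral.integral_congr fun s hs => ?_
  rw [uIcc_of_le zero_le_one] at hs
  rw [Pool.Agent.GR.Flow.ext_of_mem _ hs]
  rfl

/-- Hadamard's lemma: a smooth function vanishing to second order at `p` is a finite sum of
products of smooth functions vanishing at `p`. -/
theorem hadamard [FiniteDimensional ℝ E] {G : E → ℝ} (hG : ContDiff ℝ ∞ G) {p : E}
    (h0 : G p = 0) (h1 : fderiv ℝ G p = 0) :
    ∃ (k : ℕ) (ξ h : Fin k → E → ℝ), (∀ i, ContDiff ℝ ∞ (ξ i)) ∧ (∀ i, ContDiff ℝ ∞ (h i)) ∧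
      (∀ i, ξ i p = 0) ∧ (∀ i, h i p = 0) ∧ ∀ u, G u = ∑ i, ξ i u * h i u := by
  let b := Module.finBasis ℝ E
  have hDG : ContDiff ℝ ∞ (fderiv ℝ G) := hG.fderiv_right (m := ∞) (by simp)
  refine ⟨_, fun i u => LinearMap.toContinuousLinearMap (b.coord i) (u - p),
    fun i u => ∫ s in (0 : ℝ)..1, fderiv ℝ G (p + s • (u - p)) (b i), ?_, ?_, ?_, ?_, ?_⟩
  · intro i
    exact (LinearMap.toContinuousLinearMap (b.coord i)).contDiff.comp
      (contDiff_id.sub contDiff_const)
  · intro i
    exact contDiff_average (X := fun v => fderiv ℝ G v (b i)) (hDG.clm_apply contDiff_const) p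
  · intro i
    simp
  · intro i
    simp [h1]
  · intro u
    have h2 : ∀ s : ℝ, HasDerivAt (fun s : ℝ => G (p + s • (u - p)))
        (fderiv ℝ G (p + s • (u - p)) (u - p)) s := by
      intro s
      have h3 : HasDerivAt (fun s : ℝ => p + s • (u - p)) (u - p) s := by
        simpa using ((hasDerivAt_id s).smul_const (u - p)).const_add p
      exact HasFDerivAt.comp_hasDerivAt (f := fun s : ℝ => p + s • (u - p)) s
        ((hG.differentiable (by simp) _).hasFDerivAt) h3
    have hc : ∀ w : E, Continuous fun s : ℝ => fderiv ℝ G (p + s • (u - p)) w := by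
      intro w
      have := hDG.continuous
      fun_prop
    have h3 := intervalIntegral.integral_eq_sub_of_hasDerivAt (a := 0) (b := 1)
      (fun s _ => h2 s) ((hc (u - p)).intervalIntegrable 0 1)
    have h4 : G u = ∫ s in (0 : ℝ)..1, fderiv ℝ G (p + s • (u - p)) (u - p) := by
      rw [h3]
      simp [h0]
    rw [h4]
    have h5 : ∀ s : ℝ, fderiv ℝ G (p + s • (u - p)) (u - p)
        = ∑ i, b.coord i (u - p) * fderiv ℝ G (p + s • (u - p)) (b i) := by
      intro s
      have h6 : ∀ (L : E →L[ℝ] ℝ) (w : E), L w = ∑ i, b.coord i w * L (b i) := by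
        intro L w
        conv_lhs => rw [← b.sum_repr w]
        rw [map_sum]
        refine Finset.sum_congr rfl fun i _ => ?_
        rw [map_smul]
        rfl
      exact h6 _ _
    simp_rw [h5]
    rw [intervalIntegral.integral_finsetSum (fun i _ =>
      ((hc (b i)).intervalIntegrable 0 1).const_mul _)]
    refine Finset.sum_congr rfl fun i _ => ?_
    rw [intervalIntegral.integral_const_mul]
    rfl

end Pool.Agent.V11199.PL
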