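import Mathlib
import Pool.Agent.V11199.PL.Defs
import Pool.Agent.V11199.PL.Had

/-!
# Derivations of `C^∞(M)` in a chart
-/

open Set Topology Filter
open scoped Manifold ContDiff

namespace Pool.Agent.V11199.PL

/-- The model space. -/
abbrev EE (n : ℕ) : Type := EuclideanSpace ℝ (Fin n)

variable {n : ℕ} {M : Type*} [TopologicalSpace M] [ChartedSpace (EuclideanSpace ℝ (Fin n)) M]

/-- Cutting off a function that is smooth on an open set. -/
theorem contDiff_cutoff {G : Type*} [NormedAddCommGroup G] [NormedSpace ℝ G] {u₀ : EE n}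
    {χ : ContDiffBump u₀} {s : Set (EE n)} (hs : IsOpen s)
    (h : Metric.closedBall u₀ χ.rOut ⊆ s) {F : EE n → G} (hF : ContDiffOn ℝ ∞ F s) :
    ContDiff ℝ ∞ (fun u => χ u • F u) := by
  rw [contDiff_iff_contDiffAt]
  intro u
  by_cases hu : u ∈ s
  · exact χ.contDiff.contDiffAt.smul (hF.contDiffAt (hs.mem_nhds hu))
  · have h1 : (Metric.closedBall u₀ χ.rOut)ᶜ ∈ 𝓝 u :=
      Metric.isClosed_closedBall.isOpen_compl.mem_nhds fun h2 => hu (h h2)
    refine (contDiffAt_const (c := (0 : G))).congr_of_eventuallyEq ?_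
    filter_upwards [h1] with v hv
    have h2 : χ v = 0 := by
      apply χ.zero_of_le_dist
      rw [mem_compl_iff, Metric.mem_closedBall, not_le] at hv
      exact hv.le
    rw [h2, zero_smul]

variable [IsManifold (𝓡 n) ∞ M] [T2Space M]

/-- The local representation of a smooth function. -/
theorem contDiffOn_rep (f : C^∞⟮𝓡 n, M; ℝ⟯) (y : M) :
    ContDiffOn ℝ ∞ (fun u => f ((extChartAt (𝓡 n) y).symm u)) (extChartAt (𝓡 n) y).target := by
  have h1 : ContMDiffOn 𝓘(ℝ, EE n) 𝓘(ℝ, ℝ) ∞ (f ∘ (extChartAt (𝓡 n) y).symm)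
      (extChartAt (𝓡 n) y).target :=
    f.contMDiff.comp_contMDiffOn (contMDiffOn_extChartAt_symm y)
  exact contMDiffOn_iff_contDiffOn.1 h1

variable (n) in
/-- A bump function at `y`. -/
noncomputable def rho (y : M) : SmoothBumpFunction (𝓡 n) y := Classical.choice inferInstance

/-- The lift to `M` of a smooth function on the model space. -/
noncomputable def lift (y : M) (g : EE n → ℝ) (hg : ContDiff ℝ ∞ g) : C^∞⟮𝓡 n, M; ℝ⟯ :=
  ⟨fun x => rho n y x • g (extChartAt (𝓡 n) y x), (rho n y).contMDiff_smul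
    (hg.contMDiff.comp_contMDiffOn contMDiffOn_extChartAt)⟩

theorem lift_apply (y : M) (g : EE n → ℝ) (hg : ContDiff ℝ ∞ g) (x : M) :
    lift y g hg x = rho n y x * g (extChartAt (𝓡 n) y x) := rfl

/-- The good set, on which the bump function is `1`. -/
def good (n : ℕ) {M : Type*} [TopologicalSpace M] [ChartedSpace (EuclideanSpace ℝ (Fin n)) M]
    [IsManifold (𝓡 n) ∞ M] [T2Space M] (y : M) : Set (EE n) :=
  Metric.ball (extChartAt (𝓡 n) y y) (rho n y).rIn

theorem good_subset (y : M) : good n y ⊆ (extChartAt (𝓡 n) y).target := by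
  intro u hu
  apply (rho n y).closedBall_subset
  refine ⟨?_, by simp⟩
  rw [Metric.mem_closedBall]
  exact (le_of_lt hu).trans (rho n y).rIn_lt_rOut.le

theorem rho_eventually {y : M} {u : EE n} (hu : u ∈ good n y) :
    (rho n y : M → ℝ) =ᶠ[𝓝 ((extChartAt (𝓡 n) y).symm u)] 1 := by
  have h1 := good_subset y hu
  have h2 : (extChartAt (𝓡 n) y).symm u ∈ (extChartAt (𝓡 n) y).source :=
    (extChartAt (𝓡 n) y).map_target h1
  refine (rho n y).eventuallyEq_one_of_dist_lt ?_ ?_
  · rwa [extChartAt_source] at h2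
  · rw [(extChartAt (𝓡 n) y).right_inv h1]
    exact hu

theorem lift_eventually {y : M} {u : EE n} (hu : u ∈ good n y) (g : EE n → ℝ)
    (hg : ContDiff ℝ ∞ g) :
    (lift y g hg : M → ℝ) =ᶠ[𝓝 ((extChartAt (𝓡 n) y).symm u)]
      fun x => g (extChartAt (𝓡 n) y x) := by
  filter_upwards [rho_eventually hu] with x hx
  rw [lift_apply, hx, Pi.one_apply, one_mul]

theorem lift_eq {y : M} {u : EE n} (hu : u ∈ good n y) (g : EE n → ℝ)
    (hg : ContDiff ℝ ∞ g) : lift y g hg ((extChartAt (𝓡 n) y).symm u) = g u := by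
  have h1 := (lift_eventually hu g hg).self_of_nhds
  rw [h1]
  simp only []
  rw [(extChartAt (𝓡 n) y).right_inv (good_subset y hu)]

/-- Near a good point, the chart is a left inverse of its inverse. -/
theorem symm_eventually {y : M} {u : EE n} (hu : u ∈ good n y) :
    ∀ᶠ x in 𝓝 ((extChartAt (𝓡 n) y).symm u),
      (extChartAt (𝓡 n) y).symm (extChartAt (𝓡 n) y x) = x := by
  have h1 := good_subset y hu
  have h2 : (extChartAt (𝓡 n) y).symm u ∈ (extChartAt (𝓡 n) y).source :=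
    (extChartAt (𝓡 n) y).map_target h1
  filter_upwards [(isOpen_extChartAt_source y).mem_nhds h2] with x hx
  exact (extChartAt (𝓡 n) y).left_inv hx

theorem tendsto_chart {y : M} {u : EE n} (hu : u ∈ good n y) :
    Tendsto (extChartAt (𝓡 n) y) (𝓝 ((extChartAt (𝓡 n) y).symm u)) (𝓝 u) := by
  have h1 := good_subset y hu
  have h2 : (extChartAt (𝓡 n) y).symm u ∈ (extChartAt (𝓡 n) y).source :=
    (extChartAt (𝓡 n) y).map_target h1
  have h3 : ContinuousAt (extChartAt (𝓡 n) y) ((extChartAt (𝓡 n) y).symm u) :=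
    (continuousOn_extChartAt y).continuousAt ((isOpen_extChartAt_source y).mem_nhds h2)
  rwa [ContinuousAt, (extChartAt (𝓡 n) y).right_inv h1] at h3

/-- A derivation at a point only depends on germs. -/
theorem derivation_local {x : M} (δ : C^∞⟮𝓡 n, M; ℝ⟯ →ₗ[ℝ] ℝ)
    (hδ : ∀ f g, δ (f * g) = δ f * g x + f x * δ g) {f g : C^∞⟮𝓡 n, M; ℝ⟯}
    (h : (f : M → ℝ) =ᶠ[𝓝 x] g) : δ f = δ g := by
  obtain ⟨s, hs, hso, hxs⟩ := eventually_nhds_iff.1 h
  obtain ⟨η, -, hη⟩ := ((SmoothBumpFunction.nhds_basis_tsupport (I := 𝓡 n) x).mem_iff).1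
    (hso.mem_nhds hxs)
  let η' : C^∞⟮𝓡 n, M; ℝ⟯ := ⟨η, η.contMDiff⟩
  have h1 : η' * (f - g) = 0 := by
    ext z
    change η z * (f z - g z) = 0
    by_cases hz : z ∈ s
    · rw [hs z hz, sub_self, mul_zero]
    · have : η z = 0 := image_eq_zero_of_notMem_tsupport fun h2 => hz (hη h2)
      rw [this, zero_mul]
  have h2 := hδ η' (f - g)
  rw [h1, map_zero] at h2
  have h3 : (f - g) x = 0 := sub_eq_zero.2 (hs x hxs)
  have h4 : η' x = 1 := η.eq_one
  rw [h3, h4, mul_zero, zero_add, one_mul, map_sub] at h2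
  linarith

/-- A derivation at a point is determined by its values on linear functions of the chart. -/
theorem derivation_eq {y : M} {u : EE n} (hu : u ∈ good n y) (δ : C^∞⟮𝓡 n, M; ℝ⟯ →ₗ[ℝ] ℝ)
    (hδ : ∀ f g, δ (f * g) = δ f * g ((extChartAt (𝓡 n) y).symm u)
      + f ((extChartAt (𝓡 n) y).symm u) * δ g) (f : C^∞⟮𝓡 n, M; ℝ⟯) :
    δ f = δ (lift y (fderiv ℝ (fun v => f ((extChartAt (𝓡 n) y).symm v)) u)
      (ContinuousLinearMap.contDiff _)) := by
  set c := extChartAt (𝓡 n) y with hc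
  set x := c.symm u with hx
  set F : EE n → ℝ := fun v => f (c.symm v) with hF
  set A : EE n →L[ℝ] ℝ := fderiv ℝ F u with hA
  have htar : IsOpen c.target := isOpen_extChartAt_target y
  have hut : u ∈ c.target := good_subset y hu
  obtain ⟨r, hr0, hr⟩ := Metric.isOpen_iff.1 htar u hut
  let χ : ContDiffBump u := ⟨r / 4, r / 2, by positivity, by linarith⟩
  have hχ : Metric.closedBall u χ.rOut ⊆ c.target :=
    (Metric.closedBall_subset_ball (by change r / 2 < r; linarith)).trans hr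
  have hFs : ContDiffOn ℝ ∞ F c.target := contDiffOn_rep f y
  let G₀ : EE n → ℝ := fun v => F v - F u - A (v - u)
  have hG₀ : ContDiffOn ℝ ∞ G₀ c.target :=
    (hFs.sub contDiffOn_const).sub
      (A.contDiff.comp (contDiff_id.sub contDiff_const)).contDiffOn
  let G : EE n → ℝ := fun v => χ v • G₀ v
  have hG : ContDiff ℝ ∞ G := contDiff_cutoff htar hχ hG₀
  have hGG₀ : G =ᶠ[𝓝 u] G₀ := by
    filter_upwards [χ.eventuallyEq_one] with v hv
    simp only [G, hv, Pi.one_apply, one_smul]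
  have hGu : G u = 0 := by
    rw [hGG₀.self_of_nhds]
    simp [G₀]
  have hGd : fderiv ℝ G u = 0 := by
    rw [hGG₀.fderiv_eq]
    have h1 : HasFDerivAt F A u :=
      ((hFs.contDiffAt (htar.mem_nhds hut)).differentiableAt (by simp)).hasFDerivAt
    have h2 : HasFDerivAt (fun v => A (v - u)) A u := by
      have h20 : HasFDerivAt (fun v : EE n => v - u) (ContinuousLinearMap.id ℝ (EE n)) u :=
        (hasFDerivAt_id u).sub_const u
      exact HasFDerivAt.comp (f := fun v : EE n => v - u) u (A.hasFDerivAt (x := u - u)) h20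
    have h3 := (h1.sub_const (F u)).sub h2
    rw [sub_self] at h3
    exact h3.fderiv
  obtain ⟨k, ξ, h, hξ, hh, hξ0, hh0, hsum⟩ := hadamard hG hGu hGd
  -- the two expressions of the lift of `G`
  have e1 : δ (lift y G hG) = 0 := by
    have e2 : (lift y G hG : M → ℝ) =ᶠ[𝓝 x]
        (∑ i, lift y (ξ i) (hξ i) * lift y (h i) (hh i) : C^∞⟮𝓡 n, M; ℝ⟯) := by
      filter_upwards [rho_eventually hu] with z hz
      have e3 : (∑ i, lift y (ξ i) (hξ i) * lift y (h i) (hh i) : C^∞⟮𝓡 n, M; ℝ⟯) z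
          = ∑ i, lift y (ξ i) (hξ i) z * lift y (h i) (hh i) z := by
        have := map_sum (ContMDiffMap.evalRingHom z : C^∞⟮𝓡 n, M; ℝ⟯ →+* ℝ)
          (fun i => lift y (ξ i) (hξ i) * lift y (h i) (hh i)) Finset.univ
        exact this
      rw [e3]
      simp only [lift_apply, hz, Pi.one_apply, one_mul]
      exact hsum _
    rw [derivation_local δ hδ e2, map_sum]
    refine Finset.sum_eq_zero fun i _ => ?_
    rw [hδ, lift_eq hu, lift_eq hu, hξ0, hh0]
    ring
  have e4 : (lift y G hG : M → ℝ) =ᶠ[𝓝 x]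
      (f - lift y A (ContinuousLinearMap.contDiff _)
        + (A u - F u) • (1 : C^∞⟮𝓡 n, M; ℝ⟯) : C^∞⟮𝓡 n, M; ℝ⟯) := by
    filter_upwards [rho_eventually hu, (tendsto_chart hu).eventually hGG₀,
      symm_eventually hu] with z hz1 hz2 hz3
    change rho n y z • G (c z) = (f z - rho n y z • A (c z)) + (A u - F u) * 1
    rw [hz1, hz2]
    simp only [Pi.one_apply, one_smul, G₀, hF, map_sub]
    have h5 : f (c.symm (c z)) = f z := by rw [hz3]
    rw [h5]
    ring
  have e5 : δ (1 : C^∞⟮𝓡 n, M; ℝ⟯) = 0 := by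
    have h1 := hδ 1 1
    rw [mul_one] at h1
    have h2 : (1 : C^∞⟮𝓡 n, M; ℝ⟯) x = 1 := rfl
    rw [h2, mul_one, one_mul] at h1
    linarith
  have e6 := derivation_local δ hδ e4
  rw [e1, map_add, map_sub, map_smul, e5, smul_zero, add_zero] at e6
  linarith

end Pool.Agent.V11199.PL
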