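import Mathlib
import Pool.Agent.V11199.PL.Mfd
import Pool.Agent.V11199.PL.LocalFlow
import Pool.Agent.V11199.PL.Transport

/-!
# The Poisson tensor in a chart
-/

open Set Topology Filter
open scoped Manifold ContDiff

namespace Pool.Agent.V11199.PL

variable {n : ℕ} {M : Type*} [TopologicalSpace M] [ChartedSpace (EuclideanSpace ℝ (Fin n)) M]
  [IsManifold (𝓡 n) ∞ M] [T2Space M]

theorem hasCompactSupport_cutoff {G : Type*} [NormedAddCommGroup G] [NormedSpace ℝ G] {u₀ : EE n}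
    (χ : ContDiffBump u₀) (F : EE n → G) : HasCompactSupport (fun u => χ u • F u) :=
  χ.hasCompactSupport.smul_right

/-- Covectors, identified with vectors. -/
noncomputable def cov (n : ℕ) : EE n ≃L[ℝ] (EE n →L[ℝ] ℝ) :=
  ContinuousLinearEquiv.ofFinrankEq (by
    rw [← (LinearMap.toContinuousLinearMap (𝕜 := ℝ) (E := EE n) (F' := ℝ)).finrank_eq]
    exact (Subspace.dual_finrank_eq (K := ℝ) (V := EE n)).symm)

/-- The lift of a linear function. -/
noncomputable def ll (y : M) (l : EE n →L[ℝ] ℝ) : C^∞⟮𝓡 n, M; ℝ⟯ :=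
  lift y l (ContinuousLinearMap.contDiff _)

theorem ll_sum (y : M) (l : EE n →L[ℝ] ℝ) :
    ll y l = ∑ i, l (Module.finBasis ℝ (EE n) i) •
      ll y (LinearMap.toContinuousLinearMap ((Module.finBasis ℝ (EE n)).coord i)) := by
  ext x
  have h1 := map_sum (ContMDiffMap.evalRingHom x : C^∞⟮𝓡 n, M; ℝ⟯ →+* ℝ)
    (fun i => l (Module.finBasis ℝ (EE n) i) •
      ll y (LinearMap.toContinuousLinearMap ((Module.finBasis ℝ (EE n)).coord i))) Finset.univ
  refine Eq.trans ?_ h1.symm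
  change rho n y x * l (extChartAt (𝓡 n) y x) = ∑ i, l (Module.finBasis ℝ (EE n) i) *
    (rho n y x * (Module.finBasis ℝ (EE n)).coord i (extChartAt (𝓡 n) y x))
  have h2 : l (extChartAt (𝓡 n) y x) = ∑ i, (Module.finBasis ℝ (EE n)).coord i
      (extChartAt (𝓡 n) y x) * l (Module.finBasis ℝ (EE n) i) := by
    conv_lhs => rw [← (Module.finBasis ℝ (EE n)).sum_repr (extChartAt (𝓡 n) y x)]
    rw [map_sum]
    refine Finset.sum_congr rfl fun i _ => ?_
    rw [map_smul]
    rfl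
  rw [h2, Finset.mul_sum]
  refine Finset.sum_congr rfl fun i _ => ?_
  ring

variable {B : C^∞⟮𝓡 n, M; ℝ⟯ →ₗ[ℝ] C^∞⟮𝓡 n, M; ℝ⟯ →ₗ[ℝ] C^∞⟮𝓡 n, M; ℝ⟯}

/-- The Hamiltonian derivation at a point. -/
noncomputable def hder (B : C^∞⟮𝓡 n, M; ℝ⟯ →ₗ[ℝ] C^∞⟮𝓡 n, M; ℝ⟯ →ₗ[ℝ] C^∞⟮𝓡 n, M; ℝ⟯)
    (f : C^∞⟮𝓡 n, M; ℝ⟯) (x : M) : C^∞⟮𝓡 n, M; ℝ⟯ →ₗ[ℝ] ℝ where
  toFun g := B f g x
  map_add' := by
    intro g h
    rw [map_add]
    rfl
  map_smul' := by
    intro r g
    rw [map_smul]
    rfl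

theorem hder_apply (f g : C^∞⟮𝓡 n, M; ℝ⟯) (x : M) : hder B f x g = B f g x := rfl

theorem hder_leibniz (hB : IsPoissonBracket B) (f g h : C^∞⟮𝓡 n, M; ℝ⟯) (x : M) :
    hder B f x (g * h) = hder B f x g * h x + g x * hder B f x h := by
  rw [hder_apply, hB.leibniz]
  rfl

/-- The bracket at a point in terms of the differentials in the chart. -/
theorem bracket_eq_ll (hB : IsPoissonBracket B) {y : M} {u : EE n} (hu : u ∈ good n y)
    (f g : C^∞⟮𝓡 n, M; ℝ⟯) :
    B f g ((extChartAt (𝓡 n) y).symm u)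
      = B (ll y (fderiv ℝ (fun v => f ((extChartAt (𝓡 n) y).symm v)) u))
          (ll y (fderiv ℝ (fun v => g ((extChartAt (𝓡 n) y).symm v)) u))
          ((extChartAt (𝓡 n) y).symm u) := by
  set x := (extChartAt (𝓡 n) y).symm u with hx
  have h1 : ∀ f g : C^∞⟮𝓡 n, M; ℝ⟯, B f g x
      = B f (ll y (fderiv ℝ (fun v => g ((extChartAt (𝓡 n) y).symm v)) u)) x := fun f g =>
    derivation_eq hu (hder B f x) (fun g h => hder_leibniz hB f g h x) g
  have h2 : ∀ f g : C^∞⟮𝓡 n, M; ℝ⟯, B f g x = - B g f x := by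
    intro f g
    rw [hB.skew]
    rfl
  rw [h1 f g, h2, h1, h2, neg_neg]

/-- The values of the bracket on linear functions. -/
theorem bracket_sum {y : M} (x : M) (a b : EE n →L[ℝ] ℝ) :
    B (ll y a) (ll y b) x = ∑ i, ∑ j, a (Module.finBasis ℝ (EE n) i) *
      (b (Module.finBasis ℝ (EE n) j) *
      B (ll y (LinearMap.toContinuousLinearMap ((Module.finBasis ℝ (EE n)).coord i)))
        (ll y (LinearMap.toContinuousLinearMap ((Module.finBasis ℝ (EE n)).coord j))) x) := by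
  conv_lhs => rw [ll_sum y a]
  rw [map_sum, LinearMap.sum_apply]
  have hev : ∀ {ι : Type} (s : Finset ι) (F : ι → C^∞⟮𝓡 n, M; ℝ⟯),
      (∑ i ∈ s, F i : C^∞⟮𝓡 n, M; ℝ⟯) x = ∑ i ∈ s, F i x := fun s F =>
    map_sum (ContMDiffMap.evalRingHom x : C^∞⟮𝓡 n, M; ℝ⟯ →+* ℝ) F s
  rw [hev]
  refine Finset.sum_congr rfl fun i _ => ?_
  rw [map_smul, LinearMap.smul_apply]
  conv_lhs => rw [ll_sum y b]
  rw [map_sum]
  have hsm : ∀ (r : ℝ) (F : C^∞⟮𝓡 n, M; ℝ⟯), (r • F) x = r * F x := fun r F => rfl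
  rw [hsm, hev, Finset.mul_sum]
  refine Finset.sum_congr rfl fun j _ => ?_
  rw [map_smul, hsm]

theorem exists_local_poisson (hB : IsPoissonBracket B) (y : M) {U : Set M} (hU : IsOpen U)
    (hy : y ∈ U) :
    ∃ (P : EE n → EE n →L[ℝ] EE n) (O : Set (EE n)), LocalPoisson (cov n) P O ∧
      extChartAt (𝓡 n) y y ∈ O ∧ O ⊆ good n y ∧
      (∀ u ∈ O, (extChartAt (𝓡 n) y).symm u ∈ U) ∧
      (∀ f g : C^∞⟮𝓡 n, M; ℝ⟯, ∀ u ∈ O, B f g ((extChartAt (𝓡 n) y).symm u)
        = fderiv ℝ (fun v => g ((extChartAt (𝓡 n) y).symm v)) u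
          (P u ((cov n).symm (fderiv ℝ (fun v => f ((extChartAt (𝓡 n) y).symm v)) u)))) ∧
      (∀ f : C^∞⟮𝓡 n, M; ℝ⟯, ∃ F : EE n → ℝ, ContDiff ℝ ∞ F ∧
        ∀ u ∈ O, F =ᶠ[𝓝 u] fun v => f ((extChartAt (𝓡 n) y).symm v)) := by
  set c := extChartAt (𝓡 n) y with hc
  have htar : IsOpen c.target := isOpen_extChartAt_target y
  have hgood : IsOpen (good n y) := Metric.isOpen_ball
  have hcy : c y ∈ good n y := Metric.mem_ball_self (rho n y).rIn_pos
  have hcy' : c y ∈ c.target := good_subset y hcy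
  have hsymm : c.symm (c y) = y := c.left_inv (mem_extChartAt_source y)
  obtain ⟨r, hr0, hr⟩ : ∃ r > 0, Metric.ball (c y) r ⊆ good n y ∩ c.symm ⁻¹' U := by
    apply Metric.mem_nhds_iff.1
    refine inter_mem (hgood.mem_nhds hcy) ?_
    have h1 : ContinuousAt c.symm (c y) :=
      (continuousOn_extChartAt_symm y).continuousAt (htar.mem_nhds hcy')
    refine h1.preimage_mem_nhds ?_
    rw [hsymm]
    exact hU.mem_nhds hy
  let χ : ContDiffBump (c y) := ⟨r / 4, r / 2, by positivity, by linarith⟩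
  have hχ : Metric.closedBall (c y) χ.rOut ⊆ c.target :=
    (Metric.closedBall_subset_ball (by change r / 2 < r; linarith)).trans
      fun u hu => good_subset y (hr hu).1
  let O : Set (EE n) := Metric.ball (c y) (r / 4)
  have hOo : IsOpen O := Metric.isOpen_ball
  have hOr : O ⊆ Metric.ball (c y) r := Metric.ball_subset_ball (by linarith)
  have hOg : O ⊆ good n y := fun u hu => (hr (hOr hu)).1
  have hOt : O ⊆ c.target := fun u hu => good_subset y (hOg hu)
  have hχ1 : ∀ u ∈ O, (χ : EE n → ℝ) =ᶠ[𝓝 u] 1 := by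
    intro u hu
    filter_upwards [hOo.mem_nhds hu] with v hv
    exact χ.one_of_mem_closedBall (Metric.ball_subset_closedBall hv)
  -- the tensor
  let bb := Module.finBasis ℝ (EE n)
  let ξ : ∀ _ : Fin (Module.finrank ℝ (EE n)), EE n →L[ℝ] ℝ := fun i =>
    LinearMap.toContinuousLinearMap (bb.coord i)
  let T : Fin (Module.finrank ℝ (EE n)) → Fin (Module.finrank ℝ (EE n)) → EE n →L[ℝ] EE n :=
    fun i j => LinearMap.toContinuousLinearMap
      { toFun := fun a => (cov n a (bb i)) • bb j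
        map_add' := by
          intro a b
          rw [map_add, _root_.add_apply, add_smul]
        map_smul' := by
          intro s a
          rw [map_smul, _root_.smul_apply, smul_eq_mul, mul_smul]
          rfl }
  have hT : ∀ i j a, T i j a = (cov n a (bb i)) • bb j := fun i j a => rfl
  let P₀ : EE n → EE n →L[ℝ] EE n := fun u =>
    ∑ i, ∑ j, (B (ll y (ξ i)) (ll y (ξ j)) (c.symm u)) • T i j
  have hP₀ : ContDiffOn ℝ ∞ P₀ c.target := by
    refine ContDiffOn.sum fun i _ => ContDiffOn.sum fun j _ => ?_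
    exact (contDiffOn_rep (B (ll y (ξ i)) (ll y (ξ j))) y).smul contDiffOn_const
  let P : EE n → EE n →L[ℝ] EE n := fun u => χ u • P₀ u
  have hP : ContDiff ℝ ∞ P := contDiff_cutoff htar hχ hP₀
  have hPc : HasCompactSupport P := hasCompactSupport_cutoff χ P₀
  have hPP₀ : ∀ u ∈ O, P u = P₀ u := by
    intro u hu
    simp only [P]
    rw [(hχ1 u hu).self_of_nhds, Pi.one_apply, one_smul]
  -- key formula
  have key : ∀ u ∈ O, ∀ a b : EE n, cov n b (P u a)
      = B (ll y (cov n a)) (ll y (cov n b)) (c.symm u) := by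
    intro u hu a b
    rw [hPP₀ u hu, bracket_sum]
    simp only [P₀]
    rw [ContinuousLinearMap.sum_apply, map_sum]
    refine Finset.sum_congr rfl fun i _ => ?_
    rw [ContinuousLinearMap.sum_apply, map_sum]
    refine Finset.sum_congr rfl fun j _ => ?_
    rw [_root_.smul_apply, hT, map_smul, map_smul, smul_eq_mul, smul_eq_mul]
    change _ * (cov n a (bb i) * cov n b (bb j)) = cov n a (bb i) * (cov n b (bb j) * _)
    ring
  have hformula : ∀ f g : C^∞⟮𝓡 n, M; ℝ⟯, ∀ u ∈ O, B f g (c.symm u)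
        = fderiv ℝ (fun v => g (c.symm v)) u
          (P u ((cov n).symm (fderiv ℝ (fun v => f (c.symm v)) u))) := by
    intro f g u hu
    rw [bracket_eq_ll hB (hOg hu) f g]
    have h1 := key u hu ((cov n).symm (fderiv ℝ (fun v => f (c.symm v)) u))
      ((cov n).symm (fderiv ℝ (fun v => g (c.symm v)) u))
    rw [(cov n).apply_symm_apply, (cov n).apply_symm_apply] at h1
    exact h1.symm
  have hlin : ∀ u ∈ O, ∀ l : EE n →L[ℝ] ℝ, fderiv ℝ (fun v => ll y l (c.symm v)) u = l := by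
    intro u hu l
    have h1 : (fun v => ll y l (c.symm v)) =ᶠ[𝓝 u] l := by
      filter_upwards [hOo.mem_nhds hu] with v hv
      exact lift_eq (hOg hv) l _
    rw [h1.fderiv_eq]
    exact l.fderiv
  -- derivatives of the components of the tensor
  have hder2 : ∀ u ∈ O, ∀ a b : EE n,
      fderiv ℝ (fun v => B (ll y (cov n a)) (ll y (cov n b)) (c.symm v)) u
        = (cov n b).comp ((fderiv ℝ P u).flip a) := by
    intro u hu a b
    have h1 : (fun v => B (ll y (cov n a)) (ll y (cov n b)) (c.symm v))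
        =ᶠ[𝓝 u] fun v => cov n b (P v a) := by
      filter_upwards [hOo.mem_nhds hu] with v hv
      exact (key v hv a b).symm
    rw [h1.fderiv_eq]
    have h2 : HasFDerivAt (fun v => P v a) ((fderiv ℝ P u).flip a) u := by
      have h3 := ((hP.differentiable (by simp) u).hasFDerivAt).clm_apply (hasFDerivAt_const a u)
      refine h3.congr_fderiv ?_
      ext1 w
      simp
    exact (HasFDerivAt.comp (f := fun v => P v a) u ((cov n b).hasFDerivAt (x := P u a)) h2).fderiv
  have hsep : ∀ v w : EE n, (∀ l : EE n, cov n l v = cov n l w) → v = w := by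
    intro v w h
    rw [NormedSpace.eq_iff_forall_dual_eq ℝ]
    intro l
    have := h ((cov n).symm l)
    rwa [(cov n).apply_symm_apply] at this
  have hjac : ∀ u ∈ O, ∀ a b : EE n, fderiv ℝ P u (P u a) b
      = fderiv ℝ P u (P u b) a + P u (pull (cov n) ((fderiv ℝ P u).flip a) b) := by
    intro u hu a b
    apply hsep
    intro d
    have h1 := congrArg (fun F : C^∞⟮𝓡 n, M; ℝ⟯ => F (c.symm u))
      (hB.jacobi (ll y (cov n a)) (ll y (cov n b)) (ll y (cov n d)))
    have h2 : B (ll y (cov n a)) (B (ll y (cov n b)) (ll y (cov n d))) (c.symm u)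
        = B (B (ll y (cov n a)) (ll y (cov n b))) (ll y (cov n d)) (c.symm u)
          + B (ll y (cov n b)) (B (ll y (cov n a)) (ll y (cov n d))) (c.symm u) := h1
    rw [hformula _ _ u hu, hformula _ _ u hu, hformula _ _ u hu, hder2 u hu, hder2 u hu,
      hder2 u hu, hlin u hu, hlin u hu, hlin u hu, (cov n).symm_apply_apply,
      (cov n).symm_apply_apply] at h2
    simp only [ContinuousLinearMap.comp_apply, ContinuousLinearMap.flip_apply] at h2
    rw [map_add, h2, pull_apply]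
    ring
  refine ⟨P, O, ⟨hP, hPc, hOo, ?_, hjac⟩, Metric.mem_ball_self (by positivity), hOg,
    fun u hu => (hr (hOr hu)).2, hformula, ?_⟩
  · intro u hu a b
    rw [key u hu b a, key u hu a b, hB.skew]
    rfl
  · intro f
    refine ⟨fun v => χ v • f (c.symm v), contDiff_cutoff htar hχ (contDiffOn_rep f y), ?_⟩
    intro u hu
    filter_upwards [hχ1 u hu] with v hv
    rw [hv, Pi.one_apply, one_smul]

end Pool.Agent.V11199.PL
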