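import Mathlib
import Pool.Agent.V11199.PL.Chart
import Pool.Agent.V11199.PL.Box

/-!
# The rank of a Poisson structure and Hamiltonian paths in charts
-/

open Set Topology Filter
open scoped Manifold ContDiff

namespace Pool.Agent.V11199.PL

variable {n : ℕ} {M : Type*} [TopologicalSpace M] [ChartedSpace (EuclideanSpace ℝ (Fin n)) M]
  [IsManifold (𝓡 n) ∞ M] [T2Space M]
variable {B : C^∞⟮𝓡 n, M; ℝ⟯ →ₗ[ℝ] C^∞⟮𝓡 n, M; ℝ⟯ →ₗ[ℝ] C^∞⟮𝓡 n, M; ℝ⟯}

/-- Local data for the Poisson structure in the chart at `y`. -/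
structure IsLocal (B : C^∞⟮𝓡 n, M; ℝ⟯ →ₗ[ℝ] C^∞⟮𝓡 n, M; ℝ⟯ →ₗ[ℝ] C^∞⟮𝓡 n, M; ℝ⟯) (y : M)
    (P : EE n → EE n →L[ℝ] EE n) (O : Set (EE n)) : Prop where
  lp : LocalPoisson (cov n) P O
  mem : extChartAt (𝓡 n) y y ∈ O
  sub : O ⊆ good n y
  formula : ∀ f g : C^∞⟮𝓡 n, M; ℝ⟯, ∀ u ∈ O, B f g ((extChartAt (𝓡 n) y).symm u)
        = fderiv ℝ (fun v => g ((extChartAt (𝓡 n) y).symm v)) u
          (P u ((cov n).symm (fderiv ℝ (fun v => f ((extChartAt (𝓡 n) y).symm v)) u)))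
  ext : ∀ f : C^∞⟮𝓡 n, M; ℝ⟯, ∃ F : EE n → ℝ, ContDiff ℝ ∞ F ∧
        ∀ u ∈ O, F =ᶠ[𝓝 u] fun v => f ((extChartAt (𝓡 n) y).symm v)

theorem exists_isLocal (hB : IsPoissonBracket B) (y : M) {U : Set M} (hU : IsOpen U)
    (hy : y ∈ U) : ∃ P O, IsLocal B y P O ∧ ∀ u ∈ O, (extChartAt (𝓡 n) y).symm u ∈ U := by
  obtain ⟨P, O, h1, h2, h3, h4, h5, h6⟩ := exists_local_poisson hB y hU hy
  exact ⟨P, O, ⟨h1, h2, h3, h5, h6⟩, h4⟩

theorem IsLocal.fderiv_ll {y : M} {P : EE n → EE n →L[ℝ] EE n} {O : Set (EE n)}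
    (h : IsLocal B y P O) {u : EE n} (hu : u ∈ O) (l : EE n →L[ℝ] ℝ) :
    fderiv ℝ (fun v => ll y l ((extChartAt (𝓡 n) y).symm v)) u = l := by
  have h1 : (fun v => ll y l ((extChartAt (𝓡 n) y).symm v)) =ᶠ[𝓝 u] l := by
    filter_upwards [h.lp.isOpen.mem_nhds hu] with v hv
    exact lift_eq (h.sub hv) l _
  rw [h1.fderiv_eq]
  exact l.fderiv

/-- The part of the manifold covered by the local data. -/
def cover (n : ℕ) {M : Type*} [TopologicalSpace M] [ChartedSpace (EuclideanSpace ℝ (Fin n)) M]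
    (y : M) (O : Set (EE n)) : Set M :=
  (extChartAt (𝓡 n) y).source ∩ extChartAt (𝓡 n) y ⁻¹' O

omit [IsManifold (𝓡 n) ∞ M] [T2Space M] in
theorem isOpen_cover (y : M) {O : Set (EE n)} (hO : IsOpen O) : IsOpen (cover n y O) :=
  (continuousOn_extChartAt y).isOpen_inter_preimage (isOpen_extChartAt_source y) hO

omit [IsManifold (𝓡 n) ∞ M] [T2Space M] in
theorem symm_of_cover {y z : M} {O : Set (EE n)} (hz : z ∈ cover n y O) :
    (extChartAt (𝓡 n) y).symm (extChartAt (𝓡 n) y z) = z := (extChartAt (𝓡 n) y).left_inv hz.1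

theorem IsLocal.mem_cover {y : M} {P : EE n → EE n →L[ℝ] EE n} {O : Set (EE n)}
    (h : IsLocal B y P O) : y ∈ cover n y O := ⟨mem_extChartAt_source y, h.mem⟩

/-- The Hamiltonian derivations at a point, as a linear map. -/
noncomputable def hmap (B : C^∞⟮𝓡 n, M; ℝ⟯ →ₗ[ℝ] C^∞⟮𝓡 n, M; ℝ⟯ →ₗ[ℝ] C^∞⟮𝓡 n, M; ℝ⟯) (x : M) :
    C^∞⟮𝓡 n, M; ℝ⟯ →ₗ[ℝ] (C^∞⟮𝓡 n, M; ℝ⟯ →ₗ[ℝ] ℝ) where
  toFun f := hder B f x
  map_add' := by
    intro f g
    ext h
    change B (f + g) h x = B f h x + B g h x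
    rw [map_add]
    rfl
  map_smul' := by
    intro r f
    ext h
    change B (r • f) h x = r * B f h x
    rw [map_smul]
    rfl

/-- The rank of the Poisson structure at a point. -/
noncomputable def rkM (B : C^∞⟮𝓡 n, M; ℝ⟯ →ₗ[ℝ] C^∞⟮𝓡 n, M; ℝ⟯ →ₗ[ℝ] C^∞⟮𝓡 n, M; ℝ⟯) (x : M) : ℕ :=
  Module.finrank ℝ (LinearMap.range (hmap B x))

theorem IsLocal.rkM_eq {y : M} {P : EE n → EE n →L[ℝ] EE n} {O : Set (EE n)}
    (h : IsLocal B y P O) {z : M} (hz : z ∈ cover n y O) :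
    rkM B z = rk P (extChartAt (𝓡 n) y z) := by
  set c := extChartAt (𝓡 n) y with hc
  set u := c z with hu
  have huO : u ∈ O := hz.2
  have hsz : c.symm u = z := symm_of_cover hz
  have hut : u ∈ c.target := good_subset y (h.sub huO)
  have htar : IsOpen c.target := isOpen_extChartAt_target y
  have hdiff : ∀ g : C^∞⟮𝓡 n, M; ℝ⟯, DifferentiableAt ℝ (fun v => g (c.symm v)) u := fun g =>
    ((contDiffOn_rep g y).contDiffAt (htar.mem_nhds hut)).differentiableAt (by simp)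
  let Θ : EE n →ₗ[ℝ] (C^∞⟮𝓡 n, M; ℝ⟯ →ₗ[ℝ] ℝ) :=
    { toFun := fun v =>
        { toFun := fun g => fderiv ℝ (fun w => g (c.symm w)) u v
          map_add' := by
            intro g k
            have h1 := ((hdiff g).hasFDerivAt.add (hdiff k).hasFDerivAt).fderiv
            have h2 : fderiv ℝ (fun w => (g + k) (c.symm w)) u
              = fderiv ℝ (fun w => g (c.symm w)) u + fderiv ℝ (fun w => k (c.symm w)) u := h1
            rw [h2]
            rfl
          map_smul' := by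
            intro r g
            have h1 := ((hdiff g).hasFDerivAt.const_smul r).fderiv
            have h2 : fderiv ℝ (fun w => (r • g) (c.symm w)) u
              = r • fderiv ℝ (fun w => g (c.symm w)) u := h1
            rw [h2]
            rfl }
      map_add' := by
        intro v w
        ext g
        change fderiv ℝ (fun w => g (c.symm w)) u (v + w) = _
        rw [map_add]
        rfl
      map_smul' := by
        intro r v
        ext g
        change fderiv ℝ (fun w => g (c.symm w)) u (r • v) = _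
        rw [map_smul]
        rfl }
  have hΘ : ∀ v g, Θ v g = fderiv ℝ (fun w => g (c.symm w)) u v := fun v g => rfl
  have hΘinj : Function.Injective Θ := by
    intro v w hvw
    rw [SeparatingDual.eq_iff_forall_dual_eq (R := ℝ)]
    intro l
    have h1 := congrArg (fun T : C^∞⟮𝓡 n, M; ℝ⟯ →ₗ[ℝ] ℝ => T (ll y l)) hvw
    simp only [hΘ] at h1
    rw [h.fderiv_ll huO] at h1
    exact h1
  have hrange : LinearMap.range (hmap B z)
      = (LinearMap.range (P u : EE n →ₗ[ℝ] EE n)).map Θ := by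
    apply le_antisymm
    · rintro _ ⟨f, rfl⟩
      refine ⟨P u ((cov n).symm (fderiv ℝ (fun v => f (c.symm v)) u)), ⟨_, rfl⟩, ?_⟩
      ext g
      rw [hΘ, ← h.formula f g u huO]
      change B f g (c.symm u) = B f g z
      rw [hsz]
    · rintro _ ⟨_, ⟨a, rfl⟩, rfl⟩
      refine ⟨ll y (cov n a), ?_⟩
      ext g
      change B (ll y (cov n a)) g z = fderiv ℝ (fun w => g (c.symm w)) u (P u a)
      rw [← hsz, h.formula _ g u huO, h.fderiv_ll huO, (cov n).symm_apply_apply]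
  unfold rkM rk
  rw [hrange]
  exact (Submodule.equivMapOfInjective Θ hΘinj _).finrank_eq.symm

/-- The rank is lower semicontinuous. -/
theorem rkM_lsc (hB : IsPoissonBracket B) (x : M) : ∀ᶠ z in 𝓝 x, rkM B x ≤ rkM B z := by
  obtain ⟨P, O, h, -⟩ := exists_isLocal hB x isOpen_univ (mem_univ x)
  set c := extChartAt (𝓡 n) x with hc
  let R := LinearMap.range (P (c x) : EE n →ₗ[ℝ] EE n)
  let bb := Module.finBasis ℝ R
  have h1 : ∀ i, ∃ a, P (c x) a = (bb i : EE n) := fun i => by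
    obtain ⟨a, ha⟩ := (bb i).2
    exact ⟨a, ha⟩
  choose a ha using h1
  have hli : LinearIndependent ℝ (fun i => P (c x) (a i)) := by
    have h2 : (fun i => P (c x) (a i)) = fun i => (R.subtype (bb i)) := funext ha
    rw [h2]
    exact bb.linearIndependent.map' R.subtype (Submodule.ker_subtype R)
  have hcont : ContinuousAt (fun z => fun i => P (c z) (a i)) x := by
    have h3 : ContinuousAt c x := continuousAt_extChartAt x
    refine tendsto_pi_nhds.2 fun i => ?_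
    have h4 : Continuous fun u => P u (a i) := h.lp.smooth.continuous.clm_apply continuous_const
    exact (h4.continuousAt (x := c x)).comp h3
  have hopen := isOpen_setOfPred_linearIndependent (𝕜 := ℝ) (E := EE n)
    (ι := Fin (Module.finrank ℝ R))
  have hev := hcont.preimage_mem_nhds (hopen.mem_nhds hli)
  filter_upwards [hev, (isOpen_cover x h.lp.isOpen).mem_nhds h.mem_cover] with z hz1 hz2
  rw [h.rkM_eq h.mem_cover, h.rkM_eq hz2]
  have hz3 : LinearIndependent ℝ (fun i => P (c z) (a i)) := hz1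
  have h5 : LinearIndependent ℝ (fun i => (⟨P (c z) (a i), ⟨a i, rfl⟩⟩ :
      LinearMap.range (P (c z) : EE n →ₗ[ℝ] EE n))) :=
    LinearIndependent.of_comp (LinearMap.range (P (c z) : EE n →ₗ[ℝ] EE n)).subtype hz3
  have h6 := h5.fintype_card_le_finrank
  rw [Fintype.card_fin] at h6
  exact h6

/-- The rank is invariant under Poisson diffeomorphisms. -/
theorem rkM_diffeo {ψ : M ≃ₘ^∞⟮𝓡 n, 𝓡 n⟯ M} (hψ : IsPoissonDiffeo B ψ) (x : M) :
    rkM B (ψ x) = rkM B x := by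
  -- pull back of functions
  let Ψ : C^∞⟮𝓡 n, M; ℝ⟯ ≃ₗ[ℝ] C^∞⟮𝓡 n, M; ℝ⟯ :=
    { toFun := fun f => f.comp ⟨ψ, ψ.contMDiff⟩
      invFun := fun f => f.comp ⟨ψ.symm, ψ.symm.contMDiff⟩
      map_add' := fun f g => rfl
      map_smul' := fun r f => rfl
      left_inv := by
        intro f
        ext z
        change f (ψ (ψ.symm z)) = f z
        rw [ψ.apply_symm_apply]
      right_inv := by
        intro f
        ext z
        change f (ψ.symm (ψ z)) = f z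
        rw [ψ.symm_apply_apply] }
  have hΨ : ∀ f g, B (Ψ f) (Ψ g) x = B f g (ψ x) := by
    intro f g
    have h1 := congrArg (fun F : C^∞⟮𝓡 n, M; ℝ⟯ => F x) (hψ f g)
    exact h1
  let Λ : (C^∞⟮𝓡 n, M; ℝ⟯ →ₗ[ℝ] ℝ) ≃ₗ[ℝ] (C^∞⟮𝓡 n, M; ℝ⟯ →ₗ[ℝ] ℝ) :=
    LinearEquiv.congrLeft ℝ ℝ Ψ.symm
  have hΛ : ∀ T g, Λ T g = T (Ψ g) := fun T g => rfl
  have hrange : LinearMap.range (hmap B (ψ x)) = (LinearMap.range (hmap B x)).map
      (Λ : (C^∞⟮𝓡 n, M; ℝ⟯ →ₗ[ℝ] ℝ) →ₗ[ℝ] (C^∞⟮𝓡 n, M; ℝ⟯ →ₗ[ℝ] ℝ)) := by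
    apply le_antisymm
    · rintro _ ⟨f, rfl⟩
      refine ⟨hmap B x (Ψ f), ⟨_, rfl⟩, ?_⟩
      ext g
      exact hΨ f g
    · rintro _ ⟨_, ⟨f, rfl⟩, rfl⟩
      refine ⟨Ψ.symm f, ?_⟩
      ext g
      have h2 := hΨ (Ψ.symm f) g
      rw [Ψ.apply_symm_apply] at h2
      exact h2.symm
  unfold rkM
  rw [hrange]
  exact (Submodule.equivMapOfInjective _ Λ.injective _).finrank_eq.symm

/-- A Hamiltonian path in the chart. -/
theorem IsLocal.hasDerivWithinAt {y : M} {P : EE n → EE n →L[ℝ] EE n} {O : Set (EE n)}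
    (h : IsLocal B y P O) {f : C^∞⟮𝓡 n, M; ℝ⟯} {γ : ℝ → M} {I : Set ℝ} {s : ℝ} (hs : s ∈ I)
    (hc : ContinuousWithinAt γ I s) (hγ : γ s ∈ cover n y O)
    (hd : ∀ g : C^∞⟮𝓡 n, M; ℝ⟯, HasDerivWithinAt (fun t => g (γ t)) (B f g (γ s)) I s) :
    HasDerivWithinAt (fun t => extChartAt (𝓡 n) y (γ t))
      (P (extChartAt (𝓡 n) y (γ s)) ((cov n).symm
        (fderiv ℝ (fun v => f ((extChartAt (𝓡 n) y).symm v)) (extChartAt (𝓡 n) y (γ s))))) I s := by
  set c := extChartAt (𝓡 n) y with hcc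
  set w := P (c (γ s)) ((cov n).symm (fderiv ℝ (fun v => f (c.symm v)) (c (γ s)))) with hw
  have huO : c (γ s) ∈ O := hγ.2
  have hsz : c.symm (c (γ s)) = γ s := symm_of_cover hγ
  have hlin : ∀ l : EE n →L[ℝ] ℝ, HasDerivWithinAt (fun t => l (c (γ t))) (l w) I s := by
    intro l
    have h1 := hd (ll y l)
    have h2 : B f (ll y l) (γ s) = l w := by
      have h3 := h.formula f (ll y l) (c (γ s)) huO
      rw [h.fderiv_ll huO] at h3
      rw [← hcc, hsz] at h3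
      exact h3
    rw [h2] at h1
    have h4 : (fun t => l (c (γ t))) =ᶠ[𝓝[I] s] fun t => ll y l (γ t) := by
      have h5 := hc.eventually ((isOpen_cover y h.lp.isOpen).mem_nhds hγ)
      filter_upwards [h5] with t ht
      have h6 := lift_eq (h.sub ht.2) l (ContinuousLinearMap.contDiff _)
      rw [← hcc, symm_of_cover ht] at h6
      exact h6.symm
    exact h1.congr_of_eventuallyEq_of_mem h4 hs
  let bb := Module.finBasis ℝ (EE n)
  have h7 : ∀ v : EE n, v = ∑ i, LinearMap.toContinuousLinearMap (bb.coord i) v • bb i :=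
    fun v => (bb.sum_repr v).symm
  have h8 : HasDerivWithinAt (fun t => ∑ i,
      LinearMap.toContinuousLinearMap (bb.coord i) (c (γ t)) • bb i)
      (∑ i, LinearMap.toContinuousLinearMap (bb.coord i) w • bb i) I s :=
    HasDerivWithinAt.fun_sum fun i _ => (hlin _).smul_const (bb i)
  rw [← h7 w] at h8
  refine h8.congr (fun t _ => h7 _) (h7 _)

/-- The rank is locally constant along Hamiltonian paths. -/
theorem rkM_locally_const (hB : IsPoissonBracket B) {f : C^∞⟮𝓡 n, M; ℝ⟯} {γ : ℝ → M}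
    (hc : ContinuousOn γ (Icc 0 1))
    (hd : ∀ s ∈ Icc (0 : ℝ) 1, ∀ g : C^∞⟮𝓡 n, M; ℝ⟯,
      HasDerivWithinAt (fun t => g (γ t)) (B f g (γ s)) (Icc 0 1) s) {s₀ : ℝ}
    (hs₀ : s₀ ∈ Icc (0 : ℝ) 1) :
    ∃ δ > 0, ∀ s ∈ Icc (0 : ℝ) 1, |s - s₀| < δ → rkM B (γ s) = rkM B (γ s₀) := by
  obtain ⟨P, O, h, -⟩ := exists_isLocal hB (γ s₀) isOpen_univ (mem_univ _)
  set c := extChartAt (𝓡 n) (γ s₀) with hcc
  have h1 := (hc s₀ hs₀).eventually ((isOpen_cover (γ s₀) h.lp.isOpen).mem_nhds h.mem_cover)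
  rw [eventually_nhdsWithin_iff, Metric.eventually_nhds_iff] at h1
  obtain ⟨δ, hδ, h2⟩ := h1
  refine ⟨δ, hδ, fun s hs hsd => ?_⟩
  have h3 : ∀ t ∈ Icc (0 : ℝ) 1, |t - s₀| < δ → γ t ∈ cover n (γ s₀) O := fun t ht htd =>
    h2 (by rwa [Real.dist_eq]) ht
  obtain ⟨F, hF, hFeq⟩ := h.ext f
  -- the rescaled path
  let σ : ℝ → ℝ := fun τ => s₀ + τ * (s - s₀)
  have hσ : ∀ τ ∈ Icc (0 : ℝ) 1, σ τ ∈ Icc (0 : ℝ) 1 ∧ |σ τ - s₀| < δ := by
    intro τ hτ
    have e1 : σ τ - s₀ = τ * (s - s₀) := by simp only [σ]; ring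
    constructor
    · constructor
      · simp only [σ]
        have : s₀ + τ * (s - s₀) = (1 - τ) * s₀ + τ * s := by ring
        rw [this]
        have t1 : 0 ≤ 1 - τ := by linarith [hτ.2]
        exact add_nonneg (mul_nonneg t1 hs₀.1) (mul_nonneg hτ.1 hs.1)
      · simp only [σ]
        have : s₀ + τ * (s - s₀) = (1 - τ) * s₀ + τ * s := by ring
        rw [this]
        nlinarith [hτ.1, hτ.2, hs.2, hs₀.2]
    · rw [e1, abs_mul, abs_of_nonneg hτ.1]
      calc τ * |s - s₀| ≤ 1 * |s - s₀| := mul_le_mul_of_nonneg_right hτ.2 (abs_nonneg _)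
        _ < δ := by rwa [one_mul]
  have hFs : ContDiff ℝ ∞ (fun u => (s - s₀) • F u) := hF.const_smul (s - s₀)
  have hmain := rk_const_path (cov n) h.lp (f := fun u => (s - s₀) • F u) hFs (v := fun τ => c (γ (σ τ))) (fun τ hτ => by
      obtain ⟨e1, e2⟩ := hσ τ hτ
      have hcov := h3 _ e1 e2
      have d1 := h.hasDerivWithinAt (I := Icc (0 : ℝ) 1) e1 (hc _ e1) hcov (hd _ e1)
      have d2 : HasDerivWithinAt σ (s - s₀) (Icc 0 1) τ := by
        have := ((hasDerivAt_id τ).mul_const (s - s₀)).const_add s₀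
        rw [one_mul] at this
        exact this.hasDerivWithinAt
      have d3 := HasDerivWithinAt.scomp (h := σ) τ d1 d2 (fun t ht => (hσ t ht).1)
      refine d3.congr_deriv ?_
      have e3 : fderiv ℝ (fun u => (s - s₀) • F u) (c (γ (σ τ)))
          = (s - s₀) • fderiv ℝ (fun v => f (c.symm v)) (c (γ (σ τ))) := by
        have e4 := (hFeq _ hcov.2).fderiv_eq (𝕜 := ℝ)
        rw [← hcc] at e4
        rw [← e4]
        have e5 : HasFDerivAt (fun u => (s - s₀) • F u)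
            ((s - s₀) • fderiv ℝ F (c (γ (σ τ)))) (c (γ (σ τ))) :=
          (hF.differentiable (by simp) _).hasFDerivAt.const_smul (s - s₀)
        exact e5.fderiv
      rw [e3, map_smul, map_smul]) (fun τ hτ => (h3 _ (hσ τ hτ).1 (hσ τ hτ).2).2)
  have e0 : σ 0 = s₀ := by simp [σ]
  have e1 : σ 1 = s := by simp [σ]
  simp only [e0, e1] at hmain
  rw [h.rkM_eq (h3 s hs hsd), h.rkM_eq h.mem_cover]
  exact hmain

end Pool.Agent.V11199.PL
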