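import Mathlib
import Pool.Agent.V11199.PL.Rank
import Pool.Agent.V11199.PL.Inverse

/-!
# Poisson homeomorphisms preserve the symplectic leaves
-/

open Set Topology Filter
open scoped Manifold ContDiff

namespace Pool.Agent.V11199.PL

variable {n : ℕ} {M : Type*} [TopologicalSpace M] [ChartedSpace (EuclideanSpace ℝ (Fin n)) M]
  [IsManifold (𝓡 n) ∞ M] [T2Space M]
variable {B : C^∞⟮𝓡 n, M; ℝ⟯ →ₗ[ℝ] C^∞⟮𝓡 n, M; ℝ⟯ →ₗ[ℝ] C^∞⟮𝓡 n, M; ℝ⟯}

omit [IsManifold (𝓡 n) ∞ M] [T2Space M] in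
/-- Inverses of Poisson diffeomorphisms. -/
theorem IsPoissonDiffeo.symm {ψ : M ≃ₘ^∞⟮𝓡 n, 𝓡 n⟯ M} (hψ : IsPoissonDiffeo B ψ) :
    IsPoissonDiffeo B ψ.symm := by
  intro f g
  have h1 := hψ (f.comp ⟨ψ.symm, ψ.symm.contMDiff⟩) (g.comp ⟨ψ.symm, ψ.symm.contMDiff⟩)
  have h2 : ∀ f : C^∞⟮𝓡 n, M; ℝ⟯,
      (f.comp ⟨ψ.symm, ψ.symm.contMDiff⟩).comp ⟨ψ, ψ.contMDiff⟩ = f := by
    intro f
    ext z
    change f (ψ.symm (ψ z)) = f z
    rw [ψ.symm_apply_apply]
  rw [h2, h2] at h1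
  rw [h1]
  ext z
  change _ = B (f.comp ⟨ψ.symm, ψ.symm.contMDiff⟩) (g.comp ⟨ψ.symm, ψ.symm.contMDiff⟩)
    (ψ (ψ.symm z))
  rw [ψ.apply_symm_apply]

theorem IsPoissonHomeo.symm {φ : M ≃ₜ M} (hφ : IsPoissonHomeo B φ) : IsPoissonHomeo B φ.symm := by
  obtain ⟨ψ, hψ, h⟩ := hφ
  have : LocallyCompactSpace M := ChartedSpace.locallyCompactSpace (EuclideanSpace ℝ (Fin n)) M
  have : LocallyConnectedSpace M :=
    ChartedSpace.locallyConnectedSpace (EuclideanSpace ℝ (Fin n)) M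
  refine ⟨fun k => (ψ k).symm, fun k => (hψ k).symm, ?_⟩
  exact symm_tendsto (ψ := fun k => (ψ k).toHomeomorph) h

theorem IsPoissonHomeo.tendsto_apply {φ : M ≃ₜ M} {ψ : ℕ → M ≃ₘ^∞⟮𝓡 n, 𝓡 n⟯ M}
    (h : Tendsto (fun k => (⟨ψ k, (ψ k).continuous⟩ : C(M, M))) atTop (𝓝 ⟨φ, φ.continuous⟩))
    (x : M) : Tendsto (fun k => ψ k x) atTop (𝓝 (φ x)) :=
  ((continuous_eval_const (F := C(M, M)) x).tendsto _).comp h

theorem IsPoissonHomeo.rkM_le (hB : IsPoissonBracket B) {φ : M ≃ₜ M} (hφ : IsPoissonHomeo B φ)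
    (x : M) : rkM B (φ x) ≤ rkM B x := by
  obtain ⟨ψ, hψ, h⟩ := hφ
  obtain ⟨k, hk⟩ := ((IsPoissonHomeo.tendsto_apply h x).eventually (rkM_lsc hB (φ x))).exists
  rwa [rkM_diffeo (hψ k)] at hk

theorem IsPoissonHomeo.rkM_eq (hB : IsPoissonBracket B) {φ : M ≃ₜ M} (hφ : IsPoissonHomeo B φ)
    (x : M) : rkM B (φ x) = rkM B x := by
  apply le_antisymm (hφ.rkM_le hB x)
  have := hφ.symm.rkM_le hB (φ x)
  rwa [φ.symm_apply_apply] at this

omit [IsManifold (𝓡 n) ∞ M] [T2Space M] in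
theorem HamStep.symm {U : Set M} {x y : M} (h : HamStep B U x y) : HamStep B U y x := by
  obtain ⟨f, γ, h0, h1, hc, hd⟩ := h
  have hσ : ∀ s ∈ Icc (0 : ℝ) 1, 1 - s ∈ Icc (0 : ℝ) 1 := fun s hs =>
    ⟨by linarith [hs.2], by linarith [hs.1]⟩
  refine ⟨-f, fun s => γ (1 - s), by simpa using h1, by simpa using h0, ?_, ?_⟩
  · exact hc.comp (continuousOn_const.sub continuousOn_id) hσ
  · intro s hs
    refine ⟨(hd _ (hσ s hs)).1, fun g => ?_⟩
    have h2 := (hd _ (hσ s hs)).2 g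
    have h3 : HasDerivWithinAt (fun s : ℝ => 1 - s) (-1) (Icc 0 1) s := by
      have := (hasDerivAt_id s).const_sub 1
      exact this.hasDerivWithinAt
    have h4 := HasDerivWithinAt.scomp (h := fun s : ℝ => 1 - s) s h2 h3 hσ
    refine h4.congr_deriv ?_
    rw [map_neg, LinearMap.neg_apply]
    change (-1 : ℝ) • (B f g) (γ (1 - s)) = -(B f g (γ (1 - s)))
    simp

omit [IsManifold (𝓡 n) ∞ M] [T2Space M] in
theorem reach_refl (U : Set M) (x : M) : x ∈ reach B U x := Relation.ReflTransGen.refl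

omit [IsManifold (𝓡 n) ∞ M] [T2Space M] in
theorem reach_trans {U : Set M} {x y z : M} (h1 : y ∈ reach B U x) (h2 : z ∈ reach B U y) :
    z ∈ reach B U x := Relation.ReflTransGen.trans h1 h2

omit [IsManifold (𝓡 n) ∞ M] [T2Space M] in
theorem reach_symm {U : Set M} {x y : M} (h : y ∈ reach B U x) : x ∈ reach B U y := by
  induction h with
  | refl => exact Relation.ReflTransGen.refl
  | tail _ h2 ih => exact Relation.ReflTransGen.head h2.symm ih

/-- The local step: near any time, the image of a Hamiltonian path stays in a plaque. -/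
theorem local_step (hB : IsPoissonBracket B) {φ : M ≃ₜ M} (hφ : IsPoissonHomeo B φ)
    {U : Set M} (hU : IsOpen U) {f : C^∞⟮𝓡 n, M; ℝ⟯} {γ : ℝ → M} (hc : ContinuousOn γ (Icc 0 1))
    (hd : ∀ s ∈ Icc (0 : ℝ) 1, γ s ∈ U ∧ ∀ g : C^∞⟮𝓡 n, M; ℝ⟯,
      HasDerivWithinAt (fun t => g (γ t)) (B f g (γ s)) (Icc 0 1) s) {s₀ : ℝ}
    (hs₀ : s₀ ∈ Icc (0 : ℝ) 1) :
    ∀ᶠ s in 𝓝[Icc 0 1] s₀, φ (γ s) ∈ reach B (φ '' U) (φ (γ s₀)) := by
  have hrkφ := hφ.rkM_eq hB
  obtain ⟨ψ, hψ, hlim⟩ := hφ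
  set y := φ (γ s₀) with hy
  have hU' : IsOpen (φ '' U) := φ.isOpenMap _ hU
  have hyU' : y ∈ φ '' U := mem_image_of_mem _ (hd s₀ hs₀).1
  obtain ⟨P, O, h, hOU⟩ := exists_isLocal hB y hU' hyU'
  set c := extChartAt (𝓡 n) y with hcc
  obtain ⟨V, Z, hVo, hyV, hVO, hZ, hbox1, hbox2⟩ :=
    exists_box (cov n) h.lp h.lp.isOpen Subset.rfl h.mem
  rw [← hcc] at hyV hbox1 hbox2
  have hVcov : IsOpen (cover n y V) := isOpen_cover y hVo
  have hyVcov : y ∈ cover n y V := ⟨mem_extChartAt_source y, hyV⟩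
  have hsub : cover n y V ⊆ cover n y O := fun z hz => ⟨hz.1, hVO hz.2⟩
  have hφγ : ContinuousOn (fun s => φ (γ s)) (Icc 0 1) := φ.continuous.comp_continuousOn hc
  have hev := (hφγ s₀ hs₀).eventually (hVcov.mem_nhds hyVcov)
  rw [eventually_nhdsWithin_iff, Metric.eventually_nhds_iff] at hev
  obtain ⟨δ₁, hδ₁, h1⟩ := hev
  obtain ⟨δ₂, hδ₂, h2⟩ := rkM_locally_const hB hc (fun s hs => (hd s hs).2) hs₀
  rw [eventually_nhdsWithin_iff, Metric.eventually_nhds_iff]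
  refine ⟨min δ₁ δ₂, lt_min hδ₁ hδ₂, fun {s} hsd hs => ?_⟩
  rw [Real.dist_eq] at hsd
  -- the interval between `s` and `s₀`
  set α := min s s₀ with hα
  set β := max s s₀ with hβ
  have hαβ : α ≤ β := min_le_max
  have hint : ∀ t ∈ Icc α β, t ∈ Icc (0 : ℝ) 1 ∧ |t - s₀| < min δ₁ δ₂ := by
    intro t ht
    refine ⟨⟨(le_min hs.1 hs₀.1).trans ht.1, ht.2.trans (max_le hs.2 hs₀.2)⟩, ?_⟩
    refine lt_of_le_of_lt ?_ hsd
    rcases le_total s s₀ with hss | hss
    · have e1 : α = s := min_eq_left hss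
      have e2 : β = s₀ := max_eq_right hss
      rw [e1, e2] at ht
      rw [abs_of_nonpos (by linarith [ht.2]), abs_of_nonpos (by linarith)]
      linarith [ht.1]
    · have e1 : α = s₀ := min_eq_right hss
      have e2 : β = s := max_eq_left hss
      rw [e1, e2] at ht
      rw [abs_of_nonneg (by linarith [ht.1]), abs_of_nonneg (by linarith)]
      linarith [ht.2]
  have hφV : ∀ t ∈ Icc α β, φ (γ t) ∈ cover n y V := fun t ht =>
    h1 (by rw [Real.dist_eq]; exact lt_of_lt_of_le (hint t ht).2 (min_le_left _ _)) (hint t ht).1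
  have hrk : ∀ t ∈ Icc α β, rkM B (γ t) = rkM B (γ s₀) := fun t ht =>
    h2 t (hint t ht).1 (lt_of_lt_of_le (hint t ht).2 (min_le_right _ _))
  have hIsub : Icc α β ⊆ Icc (0 : ℝ) 1 := fun t ht => (hint t ht).1
  have hK : IsCompact (γ '' Icc α β) := isCompact_Icc.image_of_continuousOn (hc.mono hIsub)
  have hmaps : ∀ᶠ k in atTop, MapsTo (ψ k) (γ '' Icc α β) (cover n y V) := by
    have h3 := hlim
    rw [ContinuousMap.tendsto_nhds_compactOpen] at h3
    refine h3 _ hK _ hVcov ?_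
    rintro _ ⟨t, ht, rfl⟩
    exact hφV t ht
  have hconst : ∀ᶠ k in atTop, Z (c (ψ k (γ β))) = Z (c (ψ k (γ α))) := by
    filter_upwards [hmaps] with k hk
    let fk : C^∞⟮𝓡 n, M; ℝ⟯ := f.comp ⟨(ψ k).symm, (ψ k).symm.contMDiff⟩
    have hfk : fk.comp ⟨ψ k, (ψ k).contMDiff⟩ = f := by
      ext z
      change f ((ψ k).symm (ψ k z)) = f z
      rw [(ψ k).symm_apply_apply]
    refine hbox1 (fun t => c (ψ k (γ t)))
      (fun t => P (c (ψ k (γ t))) ((cov n).symm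
        (fderiv ℝ (fun v => fk (c.symm v)) (c (ψ k (γ t)))))) α β hαβ ?_
    intro t ht
    have htV : ψ k (γ t) ∈ cover n y V := hk (mem_image_of_mem _ ht)
    refine ⟨htV.2, ?_, ⟨_, rfl⟩, ?_⟩
    · refine h.hasDerivWithinAt (f := fk) (γ := fun t => ψ k (γ t)) ht
        ((ψ k).continuous.continuousAt.comp_continuousWithinAt ((hc.mono hIsub) t ht))
        (hsub htV) (fun g => ?_)
      have h3 := ((hd t (hIsub ht)).2 (g.comp ⟨ψ k, (ψ k).contMDiff⟩)).mono hIsub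
      refine h3.congr_deriv ?_
      have h4 := hψ k fk g
      rw [hfk] at h4
      rw [h4]
      rfl
    · rw [hcc, ← h.rkM_eq (hsub htV), ← h.rkM_eq h.mem_cover, rkM_diffeo (hψ k), hrk t ht, hy,
        hrkφ]
  have hαm : α ∈ Icc α β := ⟨le_rfl, hαβ⟩
  have hβm : β ∈ Icc α β := ⟨hαβ, le_rfl⟩
  have htend : ∀ t ∈ Icc α β, Tendsto (fun k => Z (c (ψ k (γ t)))) atTop (𝓝 (Z (c (φ (γ t))))) := by
    intro t ht
    have h3 := hφV t ht
    have h4 : ContinuousAt Z (c (φ (γ t))) := (hZ _ h3.2).continuousAt (hVo.mem_nhds h3.2)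
    have h5 : ContinuousAt c (φ (γ t)) :=
      (continuousOn_extChartAt y).continuousAt ((isOpen_extChartAt_source y).mem_nhds h3.1)
    exact (h4.tendsto.comp h5.tendsto).comp (IsPoissonHomeo.tendsto_apply hlim (γ t))
  have hZeq : Z (c (φ (γ β))) = Z (c (φ (γ α))) :=
    tendsto_nhds_unique_of_eventuallyEq (htend β hβm) (htend α hαm) hconst
  have hZs : Z (c (φ (γ s))) = Z (c y) := by
    rcases le_total s s₀ with hss | hss
    · have e1 : α = s := min_eq_left hss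
      have e2 : β = s₀ := max_eq_right hss
      rw [e1, e2] at hZeq
      exact hZeq.symm
    · have e1 : α = s₀ := min_eq_right hss
      have e2 : β = s := max_eq_left hss
      rw [e1, e2] at hZeq
      exact hZeq
  have hsV : φ (γ s) ∈ cover n y V := hφV s ⟨min_le_left _ _, le_max_left _ _⟩
  obtain ⟨a, c₀, hc0, hc1, hc2⟩ := hbox2 _ hsV.2 hZs
  refine Relation.ReflTransGen.single ⟨ll y (cov n a), fun t => c.symm (c₀ t), ?_, ?_, ?_, ?_⟩
  · simp only []
    rw [hc0]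
    exact c.left_inv (mem_extChartAt_source y)
  · simp only []
    rw [hc1]
    exact symm_of_cover hsV
  · refine (continuousOn_extChartAt_symm y).comp
      (fun t ht => (hc2 t ht).2.continuousAt.continuousWithinAt) ?_
    intro t ht
    exact good_subset y (h.sub (hc2 t ht).1)
  · intro t ht
    obtain ⟨htO, htd⟩ := hc2 t ht
    refine ⟨hOU _ htO, fun g => ?_⟩
    have htt : c₀ t ∈ c.target := good_subset y (h.sub htO)
    have h3 : HasFDerivAt (fun v => g (c.symm v)) (fderiv ℝ (fun v => g (c.symm v)) (c₀ t))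
        (c₀ t) :=
      (((contDiffOn_rep g y).contDiffAt ((isOpen_extChartAt_target y).mem_nhds
        htt)).differentiableAt (by simp)).hasFDerivAt
    have h4 := HasFDerivAt.comp_hasDerivAt (f := c₀) t h3 htd
    refine h4.hasDerivWithinAt.congr_deriv ?_
    have h5 := h.formula (ll y (cov n a)) g (c₀ t) htO
    rw [h.fderiv_ll htO, (cov n).symm_apply_apply] at h5
    exact h5.symm

/-- Images of Hamiltonian steps. -/
theorem step_map (hB : IsPoissonBracket B) {φ : M ≃ₜ M} (hφ : IsPoissonHomeo B φ)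
    {U : Set M} (hU : IsOpen U) {x y : M} (h : HamStep B U x y) :
    φ y ∈ reach B (φ '' U) (φ x) := by
  obtain ⟨f, γ, rfl, rfl, hc, hd⟩ := h
  refine isPreconnected_Icc.induction₂ (s := Icc (0 : ℝ) 1)
    (fun s t => φ (γ t) ∈ reach B (φ '' U) (φ (γ s)))
    (fun s hs => local_step hB hφ hU hc hd hs)
    (fun _ _ _ _ _ _ h1 h2 => reach_trans h1 h2)
    (fun _ _ _ _ h1 => reach_symm h1) (by simp) (by simp)

/-- Images of reachable sets, one inclusion. -/
theorem reach_map_subset (hB : IsPoissonBracket B) {φ : M ≃ₜ M} (hφ : IsPoissonHomeo B φ)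
    {U : Set M} (hU : IsOpen U) (x : M) :
    φ '' reach B U x ⊆ reach B (φ '' U) (φ x) := by
  rintro _ ⟨y, hy, rfl⟩
  induction hy with
  | refl => exact reach_refl _ _
  | tail _ h2 ih => exact reach_trans ih (step_map hB hφ hU h2)

/-- Images of reachable sets. -/
theorem reach_map (hB : IsPoissonBracket B) {φ : M ≃ₜ M} (hφ : IsPoissonHomeo B φ)
    {U : Set M} (hU : IsOpen U) (x : M) :
    φ '' reach B U x = reach B (φ '' U) (φ x) := by
  apply Subset.antisymm (reach_map_subset hB hφ hU x)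
  have hU' : IsOpen (φ '' U) := φ.isOpenMap _ hU
  have h1 := reach_map_subset hB hφ.symm hU' (φ x)
  rw [φ.symm_apply_apply, ← image_comp] at h1
  have h2 : (φ.symm ∘ φ) '' U = U := by
    have : (φ.symm ∘ φ : M → M) = id := funext fun z => φ.symm_apply_apply z
    rw [this, image_id]
  rw [h2] at h1
  intro y hy
  refine ⟨φ.symm y, h1 ⟨y, hy, rfl⟩, φ.apply_symm_apply y⟩

/-- Poisson homeomorphisms are continuous for the leaf topology. -/
theorem continuous_leafTopology (hB : IsPoissonBracket B) {φ : M ≃ₜ M}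
    (hφ : IsPoissonHomeo B φ) : @Continuous M M (leafTopology B) (leafTopology B) φ := by
  refine continuous_generateFrom_iff.2 ?_
  rintro _ ⟨U, x, hU, hx, rfl⟩
  apply TopologicalSpace.isOpen_generateFrom_of_mem
  refine ⟨φ.symm '' U, φ.symm x, φ.symm.isOpenMap _ hU, mem_image_of_mem _ hx, ?_⟩
  rw [← reach_map hB hφ.symm hU x, φ.symm.image_eq_preimage_symm]
  rfl

end Pool.Agent.V11199.PL
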