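import Mathlib
import Pool.Agent.V11199.PL.Main
import Pool.Agent.V11199.PL.Elem

/-!
# The elementary form of the main theorem
-/

open Set Topology Filter
open scoped Manifold ContDiff

namespace Pool.Agent.V11199.PL.Elem

variable {n : ℕ} {M : Type*} [TopologicalSpace M] [ChartedSpace (EuclideanSpace ℝ (Fin n)) M]

/-- To bundled smooth functions. -/
noncomputable def toC (f : Fn n M) : C^∞⟮𝓡 n, M; ℝ⟯ := ⟨val f, f.2⟩

/-- From bundled smooth functions. -/
noncomputable def ofC (f : C^∞⟮𝓡 n, M; ℝ⟯) : Fn n M := ⟨f, f.contMDiff⟩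

theorem toC_apply (f : Fn n M) (x : M) : toC f x = val f x := rfl
theorem val_ofC (f : C^∞⟮𝓡 n, M; ℝ⟯) (x : M) : val (ofC f) x = f x := rfl
theorem ofC_toC (f : Fn n M) : ofC (toC f) = f := rfl
theorem toC_ofC (f : C^∞⟮𝓡 n, M; ℝ⟯) : toC (ofC f) = f := rfl

/-- The bundled bracket. -/
noncomputable def toB {B : Fn n M → Fn n M → Fn n M} (hB : IsPoissonBracket B) :
    C^∞⟮𝓡 n, M; ℝ⟯ →ₗ[ℝ] C^∞⟮𝓡 n, M; ℝ⟯ →ₗ[ℝ] C^∞⟮𝓡 n, M; ℝ⟯ :=
  LinearMap.mk₂ ℝ (fun f g => toC (B (ofC f) (ofC g)))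
    (by
      intro f g h
      ext x
      change val (B (ofC (f + g)) (ofC h)) x = val (B (ofC f) (ofC h)) x + val (B (ofC g) (ofC h)) x
      rw [hB.skew, hB.skew (ofC f), hB.skew (ofC g),
        hB.add (ofC h) (ofC f) (ofC g) (ofC (f + g)) (fun x => rfl)]
      ring)
    (by
      intro r f h
      ext x
      change val (B (ofC (r • f)) (ofC h)) x = r * val (B (ofC f) (ofC h)) x
      rw [hB.skew, hB.skew (ofC f), hB.smul r (ofC h) (ofC f) (ofC (r • f)) (fun x => rfl)]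
      ring)
    (by
      intro f g h
      ext x
      exact hB.add (ofC f) (ofC g) (ofC h) (ofC (g + h)) (fun x => rfl) x)
    (by
      intro r f h
      ext x
      exact hB.smul r (ofC f) (ofC h) (ofC (r • h)) (fun x => rfl) x)

theorem toB_apply {B : Fn n M → Fn n M → Fn n M} (hB : IsPoissonBracket B)
    (f g : C^∞⟮𝓡 n, M; ℝ⟯) (x : M) : toB hB f g x = val (B (ofC f) (ofC g)) x := rfl

theorem isPoissonBracket_toB {B : Fn n M → Fn n M → Fn n M} (hB : IsPoissonBracket B) :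
    PL.IsPoissonBracket (toB hB) where
  skew := by
    intro f g
    ext x
    exact hB.skew (ofC f) (ofC g) x
  leibniz := by
    intro f g h
    ext x
    exact hB.leibniz (ofC f) (ofC g) (ofC h) (ofC (g * h)) (fun x => rfl) x
  jacobi := by
    intro f g h
    ext x
    exact hB.jacobi (ofC f) (ofC g) (ofC h) x

theorem isPoissonHomeo_toB {B : Fn n M → Fn n M → Fn n M} (hB : IsPoissonBracket B) {φ : M ≃ₜ M}
    (hφ : IsPoissonHomeo B φ) : PL.IsPoissonHomeo (toB hB) φ := by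
  obtain ⟨ψ, hψ, hlim⟩ := hφ
  refine ⟨fun k => ⟨(ψ k).toEquiv, (hψ k).1, (hψ k).2.1⟩, fun k f g => ?_, ?_⟩
  · ext x
    exact (hψ k).2.2 (ofC f) (ofC g) (ofC _) (ofC _) (fun x => rfl) (fun x => rfl) x
  · rw [ContinuousMap.tendsto_nhds_compactOpen]
    intro K hK U hU hKU
    obtain ⟨N, hN⟩ := hlim K U hK hU hKU
    filter_upwards [eventually_ge_atTop N] with k hk
    exact hN k hk

theorem hamStep_toB {B : Fn n M → Fn n M → Fn n M} (hB : IsPoissonBracket B) (U : Set M) :
    PL.HamStep (toB hB) U = HamStep B U := by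
  funext x y
  apply propext
  constructor
  · rintro ⟨f, γ, h0, h1, hc, hd⟩
    exact ⟨ofC f, γ, h0, h1, hc, fun s hs => ⟨(hd s hs).1, fun g => (hd s hs).2 (toC g)⟩⟩
  · rintro ⟨f, γ, h0, h1, hc, hd⟩
    exact ⟨toC f, γ, h0, h1, hc, fun s hs => ⟨(hd s hs).1, fun g => (hd s hs).2 (ofC g)⟩⟩

theorem reach_toB {B : Fn n M → Fn n M → Fn n M} (hB : IsPoissonBracket B) :
    PL.reach (toB hB) = reach B := by
  funext U x
  unfold PL.reach reach
  rw [hamStep_toB]

theorem leafTopology_toB {B : Fn n M → Fn n M → Fn n M} (hB : IsPoissonBracket B) :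
    PL.leafTopology (toB hB) = leafTopology B := by
  unfold PL.leafTopology leafTopology
  rw [reach_toB]

theorem main [IsManifold (𝓡 n) ∞ M] [T2Space M] (B : Fn n M → Fn n M → Fn n M)
    (hB : IsPoissonBracket B) (φ : M ≃ₜ M) (hφ : IsPoissonHomeo B φ) :
    (∀ x, φ '' leaf B x = leaf B (φ x)) ∧
      @Continuous M M (leafTopology B) (leafTopology B) φ ∧
      @Continuous M M (leafTopology B) (leafTopology B) φ.symm := by
  have hB' := isPoissonBracket_toB hB
  have hφ' := isPoissonHomeo_toB hB hφ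
  rw [← leafTopology_toB hB]
  refine ⟨fun x => ?_, continuous_leafTopology hB' hφ', continuous_leafTopology hB' hφ'.symm⟩
  have h := reach_map hB' hφ' isOpen_univ x
  rw [Set.image_univ, φ.surjective.range_eq, reach_toB] at h
  exact h

end Pool.Agent.V11199.PL.Elem
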